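import Pool.Agent.Y450.Stab.PathArea

/-! The last vertex cannot stay above the lower graph. -/

set_option autoImplicit false
open MeasureTheory intervalIntegral Set

namespace Pool.Agent.Y450.Stab

variable {T B : ℝ → ℝ} {L : ℝ}

theorem Prim_add {f g : ℝ → ℝ} (hf : Continuous f) (hg : Continuous g) (a b : ℝ) :
    Prim (fun t => f t + g t) b - Prim (fun t => f t + g t) a =
      (Prim f b - Prim f a) + (Prim g b - Prim g a) := by
  have h : Continuous fun t => f t + g t := hf.add hg
  rw [Prim_sub hf, Prim_sub hg, Prim_sub h]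
  exact intervalIntegral.integral_add (hf.intervalIntegrable _ _) (hg.intervalIntegrable _ _)

theorem Prim_const (k a b : ℝ) :
    Prim (fun _ => k) b - Prim (fun _ => k) a = k * (b - a) := by
  rw [Prim_sub continuous_const, intervalIntegral.integral_const, smul_eq_mul]
  ring

/-- a tent -/
noncomputable def Tent (c w x0 t : ℝ) : ℝ := c * max 0 (w - |t - x0|)

theorem Tent.lip {c : ℝ} (hc : 0 ≤ c) (w x0 : ℝ) : Lip c (Tent c w x0) := by
  intro s t
  have h1 : |max 0 (w - |s - x0|) - max 0 (w - |t - x0|)| ≤ |s - t| := by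
    refine (abs_max_sub_max_le_max _ _ _ _).trans (max_le (by simp) ?_)
    rw [show w - |s - x0| - (w - |t - x0|) = |t - x0| - |s - x0| by ring]
    refine (abs_abs_sub_abs_le _ _).trans ?_
    rw [show t - x0 - (s - x0) = -(s - t) by ring, abs_neg]
  unfold Tent
  rw [← mul_sub, abs_mul, abs_of_nonneg hc]
  exact mul_le_mul_of_nonneg_left h1 hc

theorem Tent.nonneg {c : ℝ} (hc : 0 ≤ c) (w x0 t : ℝ) : 0 ≤ Tent c w x0 t :=
  mul_nonneg hc (le_max_left _ _)

theorem Tent.area {c w : ℝ} (hc : 0 ≤ c) (hw : 0 ≤ w) {x0 a b : ℝ} (ha : a ≤ x0 - w / 2)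
    (hb : x0 + w / 2 ≤ b) : c * w ^ 2 / 2 ≤ Prim (Tent c w x0) b - Prim (Tent c w x0) a := by
  have hcont := (Tent.lip hc w x0).cont
  have h1 := le_Prim hcont (C := 0) ha fun t _ => Tent.nonneg hc w x0 t
  have h2 := le_Prim hcont (C := 0) hb fun t _ => Tent.nonneg hc w x0 t
  have h3 := le_Prim hcont (C := c * (w / 2)) (a := x0 - w / 2) (b := x0 + w / 2) (by linarith)
    fun t ht => by
      unfold Tent
      refine mul_le_mul_of_nonneg_left (le_max_of_le_right ?_) hc
      have : |t - x0| ≤ w / 2 := by rw [abs_le]; constructor <;> linarith [ht.1, ht.2]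
      linarith
  nlinarith

theorem Lip.add {L1 L2 : ℝ} {f g : ℝ → ℝ} (hf : Lip L1 f) (hg : Lip L2 g) :
    Lip (L1 + L2) (fun t => f t + g t) := by
  intro x y
  have h1 := hf x y
  have h2 := hg x y
  have : f x + g x - (f y + g y) = (f x - f y) + (g x - g y) := by ring
  show |f x + g x - (f y + g y)| ≤ _
  rw [this, add_mul]
  exact (abs_add_le _ _).trans (add_le_add h1 h2)

theorem Lip.addc {L : ℝ} {f : ℝ → ℝ} (hf : Lip L f) (k : ℝ) : Lip L (fun t => f t + k) := by
  intro x y
  show |f x + k - (f y + k)| ≤ _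
  rw [show f x + k - (f y + k) = f x - f y by ring]
  exact hf x y

/-- degenerate squares -/
theorem ESq.degen (hT : Lip L T) (hB : Lip L B) (L0 : 0 ≤ L) (L1 : L < 1) {x d l : ℝ}
    (S : ESq T B x d l) (h : T x = B x) : d = 0 ∧ l = 0 := by
  have h1 := S.l_le hT hB L0
  have h2 := S.d_le hT
  have l0 := S.l0
  rw [h, sub_self] at h1
  have hl : l = 0 := by
    by_contra hne
    have : 0 < l := lt_of_le_of_ne l0 (Ne.symm hne)
    have : 0 < (1 - L ^ 2) * l := mul_pos (by nlinarith) this
    linarith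
  rw [hl, mul_zero] at h2
  exact ⟨abs_eq_zero.1 (le_antisymm h2 (abs_nonneg _)), hl⟩

theorem Pot_zero (x : ℝ) : Pot T B x 0 0 = 0 := by simp [Pot]

theorem area_prop (hT : Lip L T) (hB : Lip L B) (L0 : 0 ≤ L) (L1 : L < 1) {a b : ℝ} (hab : a < b)
    (ha : T a = B a) (hb : T b = B b) (hBT : ∀ x, B x ≤ T x) {x0 M η : ℝ} (hx0 : x0 ∈ Icc a b)
    (hM : 0 < M) (hg : M ≤ T x0 - B x0) (hη : 0 < η) (hηM : 300 * η * (b - a) ≤ (1 - L) * M ^ 2)
    (hlow : ∀ x ∈ Icc a b, ∀ d l, ESq T B x d l → B (x + d + l) - η ≤ T x + d - l) : False := by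
  choose dd ll hS using fun x => ESq.ex hT hB L0 L1 (hBT x)
  have q0 : 0 < 1 - L := by linarith
  obtain ⟨da, la⟩ := (hS a).degen hT hB L0 L1 ha
  obtain ⟨db, lb⟩ := (hS b).degen hT hB L0 L1 hb
  have Xa : XX dd ll a = a := by unfold XX; rw [da, la]; ring
  have Xb : XX dd ll b = b := by unfold XX; rw [db, lb]; ring
  have Ya : YY T dd ll a = B a := by unfold YY; rw [da, la, ha]; ring
  have Yb : YY T dd ll b = B b := by unfold YY; rw [db, lb, hb]; ring
  have Pa : Pot T B a (dd a) (ll a) = 0 := by rw [da, la]; exact Pot_zero a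
  have Pb : Pot T B b (dd b) (ll b) = 0 := by rw [db, lb]; exact Pot_zero b
  have hgap : ∀ x y, T x - B x - 2 * |x - y| ≤ T y - B y := by
    intro x y
    have h1 := (abs_le.1 (hT x y)).2
    have h2 := (abs_le.1 (hB x y)).1
    have h3 : L * |x - y| ≤ |x - y| := by
      have := mul_le_mul_of_nonneg_right L1.le (abs_nonneg (x - y))
      linarith
    linarith
  have ga := hgap x0 a
  have gb := hgap x0 b
  rw [ha, sub_self, abs_of_nonneg (by linarith [hx0.1] : 0 ≤ x0 - a)] at ga
  rw [hb, sub_self, abs_of_nonpos (by linarith [hx0.2] : x0 - b ≤ 0)] at gb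
  have Mab : M ≤ b - a := by linarith
  have hab' : 0 < b - a := by linarith
  have hηM' : 300 * η ≤ (1 - L) * M := by
    have : 300 * η * (b - a) ≤ (1 - L) * M * (b - a) := by
      refine hηM.trans ?_
      have := mul_le_mul_of_nonneg_left Mab (mul_pos q0 hM).le
      linarith [show (1 - L) * M ^ 2 = (1 - L) * M * M by ring]
    exact le_of_mul_le_mul_right this hab'
  have hlow' : ∀ x ∈ Icc a b, B (XX dd ll x) - η ≤ YY T dd ll x :=
    fun x hx => hlow x hx _ _ (hS x)
  have cB := hB.cont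
  by_cases hcase : ∃ x ∈ Icc a b, M / 8 ≤ ll x ∧
      YY T dd ll x - B (XX dd ll x) ≤ (1 - L) / 4 * ll x
  · obtain ⟨x, hx, hl, hh⟩ := hcase
    have hA := path_area hT hB L0 L1 (hB.addc (-η)) L0 L1 hx.2 (dd := dd) (ll := ll)
      (fun y _ => hS y) (fun y hy => by
        have := hlow' y ⟨hx.1.trans hy.1, hy.2⟩
        show B (XX dd ll y) + -η ≤ _
        linarith)
    rw [Prim_add cB continuous_const, Prim_const, Xb, Yb, Pb] at hA
    have hP := (hS x).pot_lower hT hB
    have hh2 := hlow' x hx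
    have hXx : a ≤ XX dd ll x := by
      have h1 := (abs_le.1 ((hS x).d_le hT)).1
      have h2 : L * ll x ≤ ll x := by
        have := mul_le_mul_of_nonneg_right L1.le (hS x).l0
        linarith
      unfold XX
      linarith [hx.1]
    set l := ll x with hld
    set h := YY T dd ll x - B (XX dd ll x) with hhd
    have e1 : T x + dd x - l - B (x + dd x + l) = h := rfl
    rw [e1] at hP
    have e2 : YY T dd ll x - (B (XX dd ll x) + -η) = h + η := by rw [hhd]; ring
    have e3 : B b - (B b + -η) = η := by ring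
    rw [e2, e3] at hA
    have l0 : 0 ≤ l := (hS x).l0
    have hη0 : 0 ≤ h + η := by linarith
    have s1 : (h + η) ^ 2 ≤ ((1 - L) / 4 * l + η) ^ 2 := pow_le_pow_left₀ hη0 (by linarith) 2
    have s2 : ((1 - L) / 4 * l + η) ^ 2 ≤ (1 - L) ^ 2 * l ^ 2 / 8 + 2 * η ^ 2 := by
      have h1 := sq_nonneg ((1 - L) / 4 * l - η)
      have h2 : ((1 - L) / 4 * l + η) ^ 2 + ((1 - L) / 4 * l - η) ^ 2 =
        (1 - L) ^ 2 * l ^ 2 / 8 + 2 * η ^ 2 := by ring
      linarith
    have ηl : η ≤ (1 - L) * l * (8 / 300) := by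
      have := mul_le_mul_of_nonneg_left (show M ≤ 8 * l by linarith) q0.le
      linarith
    have s3 : η ^ 2 ≤ (1 - L) ^ 2 * l ^ 2 / 1000 := by
      have h1 := pow_le_pow_left₀ hη.le ηl 2
      have h2 : ((1 - L) * l * (8 / 300)) ^ 2 = (1 - L) ^ 2 * l ^ 2 * (64 / 90000) := by ring
      have h3 := mul_nonneg (sq_nonneg (1 - L)) (sq_nonneg l)
      linarith
    have s4 : ((h + η) ^ 2 + η ^ 2) / (1 - L) ≤ (1 - L) * l ^ 2 * (1 / 8 + 3 / 1000) := by
      have h1 : (1 - L) * l ^ 2 * (1 / 8 + 3 / 1000) * (1 - L) =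
        (1 - L) ^ 2 * l ^ 2 / 8 + 3 * ((1 - L) ^ 2 * l ^ 2 / 1000) := by ring
      rw [div_le_iff₀ q0, h1]
      linarith
    have s5 : η * (b - XX dd ll x) ≤ (1 - L) * l ^ 2 * (64 / 300) := by
      have k1 : η * (b - XX dd ll x) ≤ η * (b - a) :=
        mul_le_mul_of_nonneg_left (by linarith) hη.le
      have k2 : M ^ 2 ≤ (8 * l) ^ 2 := pow_le_pow_left₀ hM.le (by linarith) 2
      have k2 : M ^ 2 ≤ 64 * l ^ 2 := by linarith [show (8 * l) ^ 2 = 64 * l ^ 2 by ring]
      have k3 := mul_le_mul_of_nonneg_left k2 q0.le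
      linarith
    have s6 : -((1 - L) * l ^ 2 * (8 / 600)) ≤ l * h / 2 := by
      have k1 : -η ≤ h := by linarith
      have k2 := mul_le_mul_of_nonneg_left k1 l0
      have k3 : l * η ≤ l * ((1 - L) * l * (8 / 300)) :=
        mul_le_mul_of_nonneg_left ηl l0
      linarith
    have lp : 0 < l := by linarith
    have s7 : 0 < (1 - L) * l ^ 2 := mul_pos q0 (pow_pos lp 2)
    linarith
  · push Not at hcase
    have c0 : 0 ≤ (1 - L) / 8 := by linarith
    have hA := path_area (L' := L + (1 - L) / 8) hT hB L0 L1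
      ((hB.addc (-η)).add (Tent.lip c0 (M / 4) x0)) (by linarith) (by linarith) hab.le
      (dd := dd) (ll := ll) (fun y _ => hS y) (fun y hy => by
        have h1 := hlow' y hy
        show B (XX dd ll y) + -η + Tent ((1 - L) / 8) (M / 4) x0 (XX dd ll y) ≤ _
        unfold Tent
        by_cases hXy : |XX dd ll y - x0| < M / 4
        · have g1 := hgap x0 (XX dd ll y)
          rw [abs_sub_comm] at g1
          have g2 := (hS y).gap_le hT hB L0 L1
          have g3 : T (XX dd ll y) - B (XX dd ll y) ≤ 4 * ll y := g2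
          have hly : M / 8 ≤ ll y := by linarith
          have h2 := hcase y hy hly
          have h3 : (1 - L) / 4 * (M / 8) ≤ (1 - L) / 4 * ll y :=
            mul_le_mul_of_nonneg_left hly (by linarith)
          have h4 : (1 - L) / 8 * max 0 (M / 4 - |XX dd ll y - x0|) ≤ (1 - L) / 8 * (M / 4) :=
            mul_le_mul_of_nonneg_left
              (max_le (by linarith) (by linarith [abs_nonneg (XX dd ll y - x0)])) c0
          linarith
        · push Not at hXy
          rw [max_eq_left (by linarith), mul_zero]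
          linarith)
    have haM : a ≤ x0 - M / 4 / 2 := by linarith
    have hbM : x0 + M / 4 / 2 ≤ b := by linarith
    have hTa := Tent.area c0 (by linarith : (0:ℝ) ≤ M / 4) haM hbM
    have hta := Tent.nonneg c0 (M / 4) x0 a
    have htb := Tent.nonneg c0 (M / 4) x0 b
    have hH := hA
    have cT := (Tent.lip c0 (M / 4) x0).cont
    rw [Prim_add (by fun_prop) cT, Prim_add cB continuous_const, Prim_const, Xa, Xb, Ya, Yb, Pa,
      Pb] at hA
    -- the tent vanishes at the ends
    have ta : Tent ((1 - L) / 8) (M / 4) x0 a = 0 := by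
      unfold Tent
      rw [max_eq_left, mul_zero]
      rw [abs_sub_comm, abs_of_nonneg (by linarith [hx0.1])]
      linarith
    have tb : Tent ((1 - L) / 8) (M / 4) x0 b = 0 := by
      unfold Tent
      rw [max_eq_left, mul_zero]
      rw [abs_of_nonneg (by linarith [hx0.2])]
      linarith
    rw [ta, tb, show B a - (B a + -η + 0) = η by ring, show B b - (B b + -η + 0) = η by ring,
      show 1 - (L + (1 - L) / 8) = 7 / 8 * (1 - L) by ring] at hA
    have s3 : η ^ 2 ≤ (1 - L) * η * (b - a) / 300 := by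
      have k1 : 300 * η ≤ (1 - L) * (b - a) :=
        hηM'.trans (mul_le_mul_of_nonneg_left Mab q0.le)
      have := mul_le_mul_of_nonneg_left k1 hη.le
      linarith
    have s4 : (η ^ 2 + η ^ 2) / (7 / 8 * (1 - L)) ≤ η * (b - a) / 100 := by
      rw [div_le_iff₀ (by positivity)]
      have := mul_nonneg (mul_nonneg q0.le hη.le) hab'.le
      linarith
    have s7 : 0 < (1 - L) * M ^ 2 := mul_pos q0 (pow_pos hM 2)
    linarith

end Pool.Agent.Y450.Stab
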