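import Mathlib

/-! Lipschitz functions and their antiderivatives. -/

set_option autoImplicit false
open MeasureTheory intervalIntegral Set

namespace Pool.Agent.Y450.Stab

/-- Lipschitz with constant `L` -/
def Lip (L : ℝ) (f : ℝ → ℝ) : Prop := ∀ x y, |f x - f y| ≤ L * |x - y|

theorem Lip.cont {L : ℝ} {f : ℝ → ℝ} (h : Lip L f) : Continuous f := by
  have : LipschitzWith (Real.toNNReal L) f := by
    refine LipschitzWith.of_dist_le_mul fun x y => ?_
    rw [Real.dist_eq, Real.dist_eq]
    refine (h x y).trans ?_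
    exact mul_le_mul_of_nonneg_right (Real.le_coe_toNNReal L) (abs_nonneg _)
  exact this.continuous

theorem Lip.mono {L L' : ℝ} {f : ℝ → ℝ} (h : Lip L f) (hL : L ≤ L') : Lip L' f :=
  fun x y => (h x y).trans (mul_le_mul_of_nonneg_right hL (abs_nonneg _))

/-- an antiderivative -/
noncomputable def Prim (f : ℝ → ℝ) (x : ℝ) : ℝ := ∫ t in (0:ℝ)..x, f t

theorem Prim_sub {f : ℝ → ℝ} (hc : Continuous f) (a b : ℝ) :
    Prim f b - Prim f a = ∫ t in a..b, f t := by
  unfold Prim
  rw [integral_interval_sub_left (hc.intervalIntegrable _ _) (hc.intervalIntegrable _ _)]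

theorem Prim_le {f : ℝ → ℝ} (hc : Continuous f) {a b C : ℝ} (hab : a ≤ b)
    (h : ∀ t ∈ Icc a b, f t ≤ C) : Prim f b - Prim f a ≤ C * (b - a) := by
  rw [Prim_sub hc]
  have := intervalIntegral.integral_mono_on (μ := volume) hab (hc.intervalIntegrable _ _)
    (continuous_const.intervalIntegrable _ _) h
  rw [intervalIntegral.integral_const, smul_eq_mul] at this
  linarith

theorem le_Prim {f : ℝ → ℝ} (hc : Continuous f) {a b C : ℝ} (hab : a ≤ b)
    (h : ∀ t ∈ Icc a b, C ≤ f t) : C * (b - a) ≤ Prim f b - Prim f a := by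
  rw [Prim_sub hc]
  have := intervalIntegral.integral_mono_on (μ := volume) hab
    (continuous_const.intervalIntegrable _ _) (hc.intervalIntegrable _ _) h
  rw [intervalIntegral.integral_const, smul_eq_mul] at this
  linarith

theorem Prim_mono {f g : ℝ → ℝ} (hf : Continuous f) (hg : Continuous g) {a b : ℝ} (hab : a ≤ b)
    (h : ∀ t ∈ Icc a b, f t ≤ g t) : Prim f b - Prim f a ≤ Prim g b - Prim g a := by
  rw [Prim_sub hf, Prim_sub hg]
  exact intervalIntegral.integral_mono_on hab (hf.intervalIntegrable _ _)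
    (hg.intervalIntegrable _ _) h

theorem Prim_lin (a b p q : ℝ) :
    (∫ t in a..b, (p + q * (t - a))) = p * (b - a) + q * (b - a) ^ 2 / 2 := by
  have h : ∀ t ∈ uIcc a b, HasDerivAt (fun t => p * (t - a) + q * (t - a) ^ 2 / 2)
      (p + q * (t - a)) t := by
    intro t _
    have h1 : HasDerivAt (fun t : ℝ => t - a) 1 t := (hasDerivAt_id t).sub_const a
    have h2 := (h1.const_mul p).add (((h1.pow 2).const_mul q).div_const 2)
    refine h2.congr_deriv ?_
    norm_num
    ring
  rw [intervalIntegral.integral_eq_sub_of_hasDerivAt h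
    (Continuous.intervalIntegrable (by fun_prop) _ _)]
  ring

/-- on an interval with left end `a` -/
theorem Lip.left {L : ℝ} {f : ℝ → ℝ} (h : Lip L f) {a b : ℝ} (hab : a ≤ b) :
    |Prim f b - Prim f a - (b - a) * f a| ≤ L * (b - a) ^ 2 / 2 := by
  have hc := h.cont
  have e := Prim_sub hc a b
  have e1 := Prim_lin a b (f a) L
  have e2 := Prim_lin a b (f a) (-L)
  have i1 := intervalIntegral.integral_mono_on (μ := volume) (f := f)
    (g := fun t => f a + L * (t - a)) hab
    (hc.intervalIntegrable _ _) (Continuous.intervalIntegrable (by fun_prop) _ _) (fun t ht => by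
      have := (abs_le.1 (h t a)).2
      rw [abs_of_nonneg (by linarith [ht.1] : 0 ≤ t - a)] at this
      linarith)
  have i2 := intervalIntegral.integral_mono_on (μ := volume) (g := f)
    (f := fun t => f a + -L * (t - a)) hab
    (Continuous.intervalIntegrable (by fun_prop) _ _) (hc.intervalIntegrable _ _) (fun t ht => by
      have := (abs_le.1 (h t a)).1
      rw [abs_of_nonneg (by linarith [ht.1] : 0 ≤ t - a)] at this
      linarith)
  rw [e1] at i1
  rw [e2] at i2
  rw [e, abs_le]
  constructor <;> linarith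

theorem Lip.neg {L : ℝ} {f : ℝ → ℝ} (h : Lip L f) : Lip L (fun x => f (-x)) := by
  intro x y
  have := h (-x) (-y)
  rw [show -x - -y = -(x - y) by ring, abs_neg] at this
  exact this

theorem Lip.right {L : ℝ} {f : ℝ → ℝ} (h : Lip L f) {a b : ℝ} (hab : a ≤ b) :
    |Prim f b - Prim f a - (b - a) * f b| ≤ L * (b - a) ^ 2 / 2 := by
  have hc := h.cont
  have e := Prim_sub hc a b
  have k := h.neg.left (a := -b) (b := -a) (by linarith)
  rw [Prim_sub h.neg.cont, intervalIntegral.integral_comp_neg (fun x => f x)] at k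
  simp only [neg_neg] at k
  rw [e, show b - a = -a - -b by ring]
  exact k

/-- the trapezoidal rule -/
theorem Lip.trap {L : ℝ} {f : ℝ → ℝ} (h : Lip L f) {a b : ℝ} (hab : a ≤ b) :
    |Prim f b - Prim f a - (b - a) * (f a + f b) / 2| ≤ L * (b - a) ^ 2 / 4 := by
  have h1 := abs_le.1 (h.left (a := a) (b := (a + b) / 2) (by linarith))
  have h2 := abs_le.1 (h.right (a := (a + b) / 2) (b := b) (by linarith))
  rw [show (a + b) / 2 - a = (b - a) / 2 by ring] at h1
  rw [show b - (a + b) / 2 = (b - a) / 2 by ring] at h2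
  rw [abs_le]
  constructor <;> nlinarith [h1.1, h1.2, h2.1, h2.2]

/-- the trapezoidal rule in both directions -/
theorem Lip.trap' {L : ℝ} {f : ℝ → ℝ} (h : Lip L f) (a b : ℝ) :
    |Prim f b - Prim f a - (b - a) * (f a + f b) / 2| ≤ L * (b - a) ^ 2 / 4 := by
  rcases le_total a b with hab | hab
  · exact h.trap hab
  · have := h.trap hab
    rw [show Prim f b - Prim f a - (b - a) * (f a + f b) / 2 =
      -(Prim f a - Prim f b - (a - b) * (f b + f a) / 2) by ring, abs_neg,
      show (b - a) ^ 2 = (a - b) ^ 2 by ring]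
    exact this

end Pool.Agent.Y450.Stab
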