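import Pool.Agent.Y450.Stab.Geo

/-! Jordan curves near a curve made of two graphs: the angle function. -/

set_option autoImplicit false
open Complex Set Topology Metric

namespace Pool.Agent.Y450.Stab

open Pool.Agent.H763R2 Pool.Agent.H763R2.An Pool.Agent.H765R3.Peg Pool.Agent.W675.Peg
open Pool.Agent.H763R2.Dm (NoSq)

variable {c : ℝ → ℂ} {T B : ℝ → ℝ} {L e a b t1 : ℝ} {θ : ℝ → ℝ → ℝ} {g : ℤ}

/-- intermediate values of an angle -/
theorem cross {f : ℝ → ℝ} {u v α : ℝ} (huv : u ≤ v) (hf : ContinuousOn f (Icc u v))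
    (hk : ⌊(f u - α) / (2 * Real.pi)⌋ ≠ ⌊(f v - α) / (2 * Real.pi)⌋) :
    ∃ y ∈ Icc u v, ∃ m : ℤ, f y = α + m * (2 * Real.pi) := by
  have hπ := Real.pi_pos
  set k1 := ⌊(f u - α) / (2 * Real.pi)⌋ with hk1
  set k2 := ⌊(f v - α) / (2 * Real.pi)⌋ with hk2
  have a1 : (k1 : ℝ) ≤ (f u - α) / (2 * Real.pi) := Int.floor_le _
  have a2 : (f u - α) / (2 * Real.pi) < k1 + 1 := Int.lt_floor_add_one _
  have b1 : (k2 : ℝ) ≤ (f v - α) / (2 * Real.pi) := Int.floor_le _
  have b2 : (f v - α) / (2 * Real.pi) < k2 + 1 := Int.lt_floor_add_one _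
  rw [le_div_iff₀ (by positivity)] at a1 b1
  rw [div_lt_iff₀ (by positivity)] at a2 b2
  rcases lt_or_gt_of_ne hk with h | h
  · have hk' : (k1 : ℝ) + 1 ≤ k2 := by exact_mod_cast h
    have : α + k2 * (2 * Real.pi) ∈ Icc (f u) (f v) := by
      constructor <;> nlinarith
    obtain ⟨y, hy, e⟩ := intermediate_value_Icc huv hf this
    exact ⟨y, hy, k2, e⟩
  · have hk' : (k2 : ℝ) + 1 ≤ k1 := by exact_mod_cast h
    have : α + k1 * (2 * Real.pi) ∈ Icc (f v) (f u) := by
      constructor <;> nlinarith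
    obtain ⟨y, hy, e⟩ := intermediate_value_Icc' huv hf this
    exact ⟨y, hy, k1, e⟩

/-- if the first further vertex is outside, the two floors agree -/
theorem floor_of_D (A : Ang c (mgc c) θ g) {x y : ℝ} (h1 : x < y) (h2 : y < x + 1)
    (h : mgc c (DD c x y) < 0) : ⌊(θ x y - 0) / (2 * Real.pi)⌋ = Nf θ x y := by
  have hπ := Real.pi_pos
  have hc := (A.sx h1 h2).1.1 h
  set k : ℤ := Nf θ x y with hk
  have f1 : (k : ℝ) ≤ (θ x y - Real.pi / 2) / (2 * Real.pi) := Int.floor_le _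
  have f2 : (θ x y - Real.pi / 2) / (2 * Real.pi) < k + 1 := Int.lt_floor_add_one _
  rw [le_div_iff₀ (by positivity)] at f1
  rw [div_lt_iff₀ (by positivity)] at f2
  set φ : ℝ := θ x y - k * (2 * Real.pi) with hφ
  have e : θ x y = φ + k * (2 * Real.pi) := by rw [hφ]; ring
  rw [e, Real.cos_add_int_mul_two_pi] at hc
  have u1 : Real.pi / 2 ≤ φ := by rw [hφ]; linarith
  have u2 : φ < 5 * Real.pi / 2 := by rw [hφ]; linarith
  have v2 : φ < 3 * Real.pi / 2 := by
    by_contra hcon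
    push Not at hcon
    have := Real.cos_nonneg_of_neg_pi_div_two_le_of_le (x := φ - 2 * Real.pi)
      (by linarith) (by linarith)
    rw [Real.cos_sub_two_pi] at this
    linarith
  rw [Int.floor_eq_iff, sub_zero]
  constructor
  · rw [le_div_iff₀ (by positivity)]; linarith
  · rw [div_lt_iff₀ (by positivity)]; linarith

theorem Nbr.p_top (K : Nbr c T B L e a b t1) : |(c 1).im - T (c 1).re| ≤ e := by
  have h := K.loop.per 0
  rw [zero_add] at h
  rw [h]
  exact K.top 0 ⟨le_rfl, K.o1.le⟩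

theorem Nbr.p_bot (K : Nbr c T B L e a b t1) : |(c 1).im - B (c 1).re| ≤ e :=
  K.bot 1 ⟨K.o2.le, le_rfl⟩

theorem Nbr.q_top (K : Nbr c T B L e a b t1) : |(c t1).im - T (c t1).re| ≤ e :=
  K.top t1 ⟨K.o1.le, le_rfl⟩

theorem Nbr.q_bot (K : Nbr c T B L e a b t1) : |(c t1).im - B (c t1).re| ≤ e :=
  K.bot t1 ⟨le_rfl, K.o2.le⟩

/-- a locally constant function with values in `ℤ` -/
theorem loc_const {F : ℝ → ℤ} {u v : ℝ} (huv : u ≤ v)
    (h : ∀ s ∈ Icc u v, ∃ r > 0, ∀ s' ∈ Icc u v, |s' - s| < r → F s' = F s) : F u = F v := by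
  have hc : ContinuousOn F (Icc u v) := by
    intro s hs
    obtain ⟨r, hr, hF⟩ := h s hs
    have : ∀ᶠ s' in 𝓝[Icc u v] s, F s' = F s := by
      filter_upwards [self_mem_nhdsWithin, nhdsWithin_le_nhds (Metric.ball_mem_nhds s hr)]
        with s' h1 h2
      exact hF s' h1 (by rw [Metric.mem_ball, Real.dist_eq] at h2; exact h2)
    exact continuousWithinAt_const.congr_of_eventuallyEq this rfl
  exact isPreconnected_Icc.constant hc ⟨le_rfl, huv⟩ ⟨huv, le_rfl⟩

theorem Nbr.big (K : Nbr c T B L e a b t1) {m0 : ℝ} (hm : 4 * e < (1 - L ^ 2) * (m0 - 2 * e))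
    {w : ℝ} (hw : m0 - 2 * e ≤ w) : 4 * e < (1 - L ^ 2) * w := by
  have hq : 0 < 1 - L ^ 2 := by nlinarith [K.L0, K.L1]
  exact hm.trans_le (mul_le_mul_of_nonneg_left hw hq.le)

theorem Nbr.per (K : Nbr c T B L e a b t1) (t : ℝ) : c (1 + t) = c t := by
  rw [add_comm]; exact K.loop.per t

theorem Nbr.c1 (K : Nbr c T B L e a b t1) : (c 1).re ≤ a + e := by
  have h := K.per 0
  rw [add_zero] at h
  rw [h]
  exact K.lft

/-- a neighbourhood of a parameter -/
theorem Nbr.nb (K : Nbr c T B L e a b t1) (s : ℝ) :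
    ∃ r > 0, ∀ s', |s' - s| < r → |(c s').re - (c s).re| < e := by
  have hc : Continuous fun t => (c t).re := continuous_re.comp K.loop.cont
  obtain ⟨r, hr, h⟩ := Metric.continuous_iff.1 hc s e K.e0
  exact ⟨r, hr, fun s' hs' => by
    have := h s' (by rw [Real.dist_eq]; exact hs')
    rwa [Real.dist_eq] at this⟩

/-- the four branches are locally constant -/
theorem Nbr.loc1 (K : Nbr c T B L e a b t1) (A : Ang c (mgc c) θ g) {m0 x : ℝ}
    (hm : 4 * e < (1 - L ^ 2) * (m0 - 2 * e)) (h2 : x ≤ b - m0) (hm2 : 2 * e < m0)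
    {u v : ℝ} (hu : 0 ≤ u) (huv : u ≤ v) (hv : v ≤ t1) (h : ∀ t ∈ Icc u v, (c t).re < x + e) :
    Nf θ u t1 = Nf θ v t1 := by
  have o1 := K.o1
  have o2 := K.o2
  have ct1 := K.rgt
  have hvt : v < t1 := by
    rcases eq_or_lt_of_le hv with h' | h'
    · have := h v ⟨huv, le_rfl⟩
      rw [h'] at this
      linarith
    · exact h'
  refine A.Nf_x (by linarith) huv hvt fun t ht k => ?_
  have := K.D_right (x := t) (y := t1) (K.top t ⟨by linarith [ht.1], by linarith [ht.2]⟩) K.q_top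
    (K.big hm (by linarith [h t ht]))
  linarith [k.1]

theorem Nbr.loc2 (K : Nbr c T B L e a b t1) (A : Ang c (mgc c) θ g) {m0 x : ℝ}
    (hm : 4 * e < (1 - L ^ 2) * (m0 - 2 * e)) (h1 : a + m0 ≤ x) (hm2 : 2 * e < m0)
    {u v : ℝ} (hu : 0 ≤ u) (huv : u ≤ v) (hv : v ≤ t1) (h : ∀ t ∈ Icc u v, x - e < (c t).re) :
    Nf θ u 1 = Nf θ v 1 := by
  have o1 := K.o1
  have o2 := K.o2
  have c0 := K.lft
  have c1 := K.c1
  have hut : 0 < u := by
    rcases eq_or_lt_of_le hu with h' | h'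
    · have := h u ⟨le_rfl, huv⟩
      rw [← h'] at this
      linarith
    · exact h'
  refine A.Nf_x (by linarith) huv (by linarith) fun t ht k => ?_
  have := K.E_left (x := t) (y := 1) (K.top t ⟨by linarith [ht.1], by linarith [ht.2]⟩) K.p_top
    K.p_bot (K.big hm (by linarith [h t ht]))
  linarith [k.2]

theorem Nbr.loc3 (K : Nbr c T B L e a b t1) (A : Ang c (mgc c) θ g) {m0 x : ℝ}
    (hm : 4 * e < (1 - L ^ 2) * (m0 - 2 * e)) (h2 : x ≤ b - m0) (hm2 : 2 * e < m0)
    {u v : ℝ} (hu : 0 ≤ u) (huv : u ≤ v) (hv : v ≤ t1) (h : ∀ t ∈ Icc u v, (c t).re < x + e) :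
    Nf θ t1 (1 + u) = Nf θ t1 (1 + v) := by
  have o1 := K.o1
  have o2 := K.o2
  have ct1 := K.rgt
  have hvt : v < t1 := by
    rcases eq_or_lt_of_le hv with h' | h'
    · have := h v ⟨huv, le_rfl⟩
      rw [h'] at this
      linarith
    · exact h'
  refine A.Nf_y (by linarith) (by linarith) (by linarith) fun t ht k => ?_
  have e' := K.per (t - 1)
  rw [show 1 + (t - 1) = t by ring] at e'
  have := K.D_left (x := t1) (y := t) K.q_top K.q_bot
    (by rw [e']; exact K.top (t - 1) ⟨by linarith [ht.1], by linarith [ht.2]⟩)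
    (K.big hm (by
      rw [e']; linarith [h (t - 1) ⟨by linarith [ht.1], by linarith [ht.2]⟩]))
  linarith [k.1]

theorem Nbr.loc4 (K : Nbr c T B L e a b t1) (A : Ang c (mgc c) θ g) {m0 x : ℝ}
    (hm : 4 * e < (1 - L ^ 2) * (m0 - 2 * e)) (h1 : a + m0 ≤ x) (hm2 : 2 * e < m0)
    {u v : ℝ} (hu : 0 ≤ u) (huv : u ≤ v) (hv : v ≤ t1) (h : ∀ t ∈ Icc u v, x - e < (c t).re) :
    Nf θ 1 (1 + u) = Nf θ 1 (1 + v) := by
  have o1 := K.o1
  have o2 := K.o2
  have c0 := K.lft
  have c1 := K.c1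
  have hut : 0 < u := by
    rcases eq_or_lt_of_le hu with h' | h'
    · have := h u ⟨le_rfl, huv⟩
      rw [← h'] at this
      linarith
    · exact h'
  refine A.Nf_y (by linarith) (by linarith) (by linarith) fun t ht k => ?_
  have e' := K.per (t - 1)
  rw [show 1 + (t - 1) = t by ring] at e'
  have := K.D_right (x := 1) (y := t) K.p_top
    (by rw [e']; exact K.top (t - 1) ⟨by linarith [ht.1], by linarith [ht.2]⟩)
    (K.big hm (by
      rw [e']; linarith [h (t - 1) ⟨by linarith [ht.1], by linarith [ht.2]⟩]))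
  linarith [k.1]

/-- gluing two branches over `x` -/
theorem Nbr.glue (K : Nbr c T B L e a b t1) {x m0 : ℝ} (hm2 : 2 * e < m0) (h1 : a + m0 ≤ x)
    (h2 : x ≤ b - m0) {P Q : ℝ → ℤ}
    (hP : ∀ u v, 0 ≤ u → u ≤ v → v ≤ t1 → (∀ t ∈ Icc u v, (c t).re < x + e) → P u = P v)
    (hQ : ∀ u v, 0 ≤ u → u ≤ v → v ≤ t1 → (∀ t ∈ Icc u v, x - e < (c t).re) → Q u = Q v)
    (heq : ∀ s ∈ Ioo 0 t1, (c s).re = x → P s = Q s) : P 0 = Q t1 := by
  have c0 := K.lft
  have ct1 := K.rgt
  have e0 := K.e0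
  set F : ℝ → ℤ := fun s => if (c s).re ≤ x then P s else Q s with hF
  have hPs : ∀ s ∈ Icc 0 t1, (c s).re ≤ x → ∃ r > 0, ∀ s' ∈ Icc 0 t1, |s' - s| < r →
      P s' = P s := by
    intro s hs hx
    obtain ⟨r, hr, h⟩ := K.nb s
    refine ⟨r, hr, fun s' hs' hd => ?_⟩
    rcases le_total s s' with hl | hl
    · refine (hP s s' hs.1 hl hs'.2 fun t ht => ?_).symm
      have := (abs_lt.1 (h t (by
        rw [abs_lt] at hd ⊢; constructor <;> linarith [ht.1, ht.2, hd.1, hd.2]))).2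
      linarith
    · refine hP s' s hs'.1 hl hs.2 fun t ht => ?_
      have := (abs_lt.1 (h t (by
        rw [abs_lt] at hd ⊢; constructor <;> linarith [ht.1, ht.2, hd.1, hd.2]))).2
      linarith
  have hQs : ∀ s ∈ Icc 0 t1, x ≤ (c s).re → ∃ r > 0, ∀ s' ∈ Icc 0 t1, |s' - s| < r →
      Q s' = Q s := by
    intro s hs hx
    obtain ⟨r, hr, h⟩ := K.nb s
    refine ⟨r, hr, fun s' hs' hd => ?_⟩
    rcases le_total s s' with hl | hl
    · refine (hQ s s' hs.1 hl hs'.2 fun t ht => ?_).symm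
      have := (abs_lt.1 (h t (by
        rw [abs_lt] at hd ⊢; constructor <;> linarith [ht.1, ht.2, hd.1, hd.2]))).1
      linarith
    · refine hQ s' s hs'.1 hl hs.2 fun t ht => ?_
      have := (abs_lt.1 (h t (by
        rw [abs_lt] at hd ⊢; constructor <;> linarith [ht.1, ht.2, hd.1, hd.2]))).1
      linarith
  have hc : Continuous fun t => (c t).re := continuous_re.comp K.loop.cont
  have key := loc_const (F := F) K.o1.le fun s hs => by
    rcases lt_trichotomy (c s).re x with h | h | h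
    · obtain ⟨r, hr, hr'⟩ := hPs s hs h.le
      obtain ⟨r2, hr2, hr2'⟩ := Metric.continuous_iff.1 hc s (x - (c s).re) (by linarith)
      refine ⟨min r r2, lt_min hr hr2, fun s' hs' hd => ?_⟩
      have k := hr2' s' (by rw [Real.dist_eq]; exact hd.trans_le (min_le_right _ _))
      rw [Real.dist_eq] at k
      have k := (abs_lt.1 k).2
      simp only [hF]
      rw [if_pos (by linarith), if_pos h.le]
      exact hr' s' hs' (hd.trans_le (min_le_left _ _))
    · have hs0 : s ∈ Ioo 0 t1 := by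
        constructor
        · rcases eq_or_lt_of_le hs.1 with h' | h'
          · rw [← h'] at h; linarith
          · exact h'
        · rcases eq_or_lt_of_le hs.2 with h' | h'
          · rw [h'] at h; linarith
          · exact h'
      have hpq := heq s hs0 h
      obtain ⟨r, hr, hr'⟩ := hPs s hs h.le
      obtain ⟨r2, hr2, hr2'⟩ := hQs s hs h.ge
      refine ⟨min r r2, lt_min hr hr2, fun s' hs' hd => ?_⟩
      simp only [hF]
      rw [if_pos h.le]
      split_ifs
      · exact hr' s' hs' (hd.trans_le (min_le_left _ _))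
      · rw [hpq]
        exact hr2' s' hs' (hd.trans_le (min_le_right _ _))
    · obtain ⟨r, hr, hr'⟩ := hQs s hs h.le
      obtain ⟨r2, hr2, hr2'⟩ := Metric.continuous_iff.1 hc s ((c s).re - x) (by linarith)
      refine ⟨min r r2, lt_min hr hr2, fun s' hs' hd => ?_⟩
      have k := hr2' s' (by rw [Real.dist_eq]; exact hd.trans_le (min_le_right _ _))
      rw [Real.dist_eq] at k
      have k := (abs_lt.1 k).1
      simp only [hF]
      rw [if_neg (by linarith), if_neg (by linarith)]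
      exact hr' s' hs' (hd.trans_le (min_le_left _ _))
  simp only [hF] at key
  rw [if_pos (by linarith), if_neg (by linarith)] at key
  exact key

/-- if the right branches agree over `x`, the two outer branches agree -/
theorem Nbr.right_or (K : Nbr c T B L e a b t1) (A : Ang c (mgc c) θ g) {m0 x : ℝ}
    (hm : 4 * e < (1 - L ^ 2) * (m0 - 2 * e)) (hm2 : 2 * e < m0) (h1 : a + m0 ≤ x)
    (h2 : x ≤ b - m0) (hne : Nf θ 0 t1 ≠ Nf θ t1 1) :
    ∃ s ∈ Ioo 0 t1, (c s).re = x ∧ Nf θ s t1 ≠ Nf θ s 1 := by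
  by_contra hcon
  push Not at hcon
  exact hne (K.glue (P := fun s => Nf θ s t1) (Q := fun s => Nf θ s 1) hm2 h1 h2
    (fun u v hu huv hv h => K.loc1 A hm h2 hm2 hu huv hv h)
    (fun u v hu huv hv h => K.loc2 A hm h1 hm2 hu huv hv h) hcon)

theorem Nbr.left_or (K : Nbr c T B L e a b t1) (A : Ang c (mgc c) θ g) {m0 x : ℝ}
    (hm : 4 * e < (1 - L ^ 2) * (m0 - 2 * e)) (hm2 : 2 * e < m0) (h1 : a + m0 ≤ x)
    (h2 : x ≤ b - m0) (hne : Nf θ t1 1 ≠ Nf θ 0 t1 + g) :
    ∃ s ∈ Ioo 0 t1, (c s).re = x ∧ Nf θ t1 (1 + s) ≠ Nf θ 1 (1 + s) := by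
  by_contra hcon
  push Not at hcon
  have k := K.glue (P := fun s => Nf θ t1 (1 + s)) (Q := fun s => Nf θ 1 (1 + s)) hm2 h1 h2
    (fun u v hu huv hv h => K.loc3 A hm h2 hm2 hu huv hv h)
    (fun u v hu huv hv h => K.loc4 A hm h1 hm2 hu huv hv h) hcon
  have e5 := A.Nf_per (x := 0) (y := t1) K.o1 (by linarith [K.o2])
  rw [zero_add, add_comm t1 1] at e5
  simp only [add_zero] at k
  rw [e5] at k
  exact hne k

/-- first case: squares to the right -/
theorem Nbr.sqr_right (K : Nbr c T B L e a b t1) (A : Ang c (mgc c) θ g)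
    (hne : Nf θ 0 t1 ≠ Nf θ t1 1) {m0 x : ℝ} (hm : 4 * e < (1 - L ^ 2) * (m0 - 2 * e))
    (hm2 : 2 * e < m0) (h1 : a + m0 ≤ x) (h2 : x ≤ b - m0) (hg : 8 * e < (1 - L ^ 2) * (T x - B x)) {d' l' : ℝ}
    (S : ESq T B x d' l') : -(10 * e) ≤ (1 - L) * (T x + d' - l' - B (x + d' + l')) := by
  obtain ⟨s, ⟨s0, s1⟩, es, hne'⟩ := K.right_or A hm hm2 h1 h2 hne
  have o1 := K.o1
  have o2 := K.o2
  obtain ⟨y, hy, m, e'⟩ := cross (f := fun y => θ s y) (α := Real.pi / 2) o2.le
    (A.cont.comp (f := fun y : ℝ => (s, y)) (by fun_prop) fun y hy =>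
      ⟨by simp only; linarith [hy.1], by simp only; linarith [hy.2]⟩) hne'
  obtain ⟨ρ, hρ, m1, m2⟩ := A.ex s y (by linarith [hy.1]) (by linarith [hy.2])
  rw [e', Real.cos_add_int_mul_two_pi, Real.cos_pi_div_two, mul_zero] at m1
  rw [e', Real.sin_add_int_mul_two_pi, Real.sin_pi_div_two, mul_one] at m2
  have k1 := K.top s ⟨s0.le, s1.le⟩
  have k2 := K.bot y hy
  rw [es] at k1
  have hr : DD c s y ∈ range c := ((mgc_sg K.loop).zero K.loop).1 m1
  have d1 : (DD c s y).re = x + ((c s).im - (c y).im) := by rw [DD_re', es]; ring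
  have d2 : (DD c s y).im = (c s).im + ((c y).re - x) := by rw [DD_im', es]
  have f1 : (CC c s y).re = x + ((c y).re - x) + ((c s).im - (c y).im) := by rw [CC_re']; ring
  have f2 : (CC c s y).im = (c s).im - ((c s).im - (c y).im) + ((c y).re - x) := by
    rw [CC_im', es]; ring
  have n1 := K.near hr
  have n2 := K.le_top hr
  rw [d1, d2] at n1 n2
  have n3 := K.above (z := CC c s y) (by rw [m2]; exact hρ.le)
  rw [f1, f2] at n3
  refine geo (p := (c s).im) (d := (c y).re - x) (l := (c s).im - (c y).im) K.lT K.lB K.L0 K.L1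
    K.e0 k1 ?_ hg n1 n2 n3 S
  rw [show x + ((c y).re - x) = (c y).re by ring,
    show (c s).im - ((c s).im - (c y).im) = (c y).im by ring]
  exact k2

theorem Lip.refl (z : ℝ) {L : ℝ} {f : ℝ → ℝ} (h : Lip L f) : Lip L (fun x => f (z - x)) := by
  intro x y
  have := h (z - x) (z - y)
  rw [show z - x - (z - y) = -(x - y) by ring, abs_neg] at this
  exact this

/-- second case: squares to the left -/
theorem Nbr.sqr_left (K : Nbr c T B L e a b t1) (A : Ang c (mgc c) θ g)
    (hne : Nf θ t1 1 ≠ Nf θ 0 t1 + g) (z : ℝ) {m0 x : ℝ}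
    (hm : 4 * e < (1 - L ^ 2) * (m0 - 2 * e)) (hm2 : 2 * e < m0)
    (h1 : a + m0 ≤ x) (h2 : x ≤ b - m0) (hg : 8 * e < (1 - L ^ 2) * (T x - B x)) {d' l' : ℝ}
    (S : ESq (fun x => T (z - x)) (fun x => B (z - x)) (z - x) d' l') :
    -(10 * e) ≤ (1 - L) * (T x + d' - l' - B (z - (z - x + d' + l'))) := by
  obtain ⟨s, ⟨s0, s1⟩, es, hne'⟩ := K.left_or A hm hm2 h1 h2 hne
  have o1 := K.o1
  have o2 := K.o2
  have per := K.per
  have c1 := K.c1
  have ct1 := K.rgt
  have e0 := K.e0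
  have k1 := K.top s ⟨s0.le, s1.le⟩
  have k1' : |(c (1 + s)).im - T (c (1 + s)).re| ≤ e := by rw [per]; exact k1
  have o1' := K.D_left (x := t1) (y := 1 + s) K.q_top K.q_bot k1'
    (K.big hm (by rw [per, es]; linarith))
  have o2' := K.D_right (x := 1) (y := 1 + s) K.p_top k1'
    (K.big hm (by rw [per, es]; linarith))
  have g1 := floor_of_D A (by linarith : t1 < 1 + s) (by linarith) o1'
  have g2 := floor_of_D A (by linarith : (1:ℝ) < 1 + s) (by linarith) o2'
  obtain ⟨y, hy, m, e'⟩ := cross (f := fun y => θ y (1 + s)) (α := 0) o2.le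
    (A.cont.comp (f := fun y : ℝ => (y, 1 + s)) (by fun_prop) fun y hy =>
      ⟨by simp only; linarith [hy.2], by simp only; linarith [hy.1]⟩)
    (by rw [g1, g2]; exact hne')
  obtain ⟨ρ, hρ, m1, m2⟩ := A.ex y (1 + s) (by linarith [hy.2]) (by linarith [hy.1])
  rw [e', Real.cos_add_int_mul_two_pi, Real.cos_zero, mul_one] at m1
  rw [e', Real.sin_add_int_mul_two_pi, Real.sin_zero, mul_zero] at m2
  have k2 := K.bot y hy
  rw [es] at k1
  have hr : CC c y (1 + s) ∈ range c := ((mgc_sg K.loop).zero K.loop).1 m2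
  have d1 : (CC c y (1 + s)).re = z - (z - x + ((c s).im - (c y).im)) := by
    rw [CC_re', per, es]; ring
  have d2 : (CC c y (1 + s)).im = (c s).im + (x - (c y).re) := by
    rw [CC_im', per, es]
  have f1 : (DD c y (1 + s)).re = z - (z - x + (x - (c y).re) + ((c s).im - (c y).im)) := by
    rw [DD_re', per]; ring
  have f2 : (DD c y (1 + s)).im = (c s).im - ((c s).im - (c y).im) + (x - (c y).re) := by
    rw [DD_im', per, es]; ring
  have n1 := K.near hr
  have n2 := K.le_top hr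
  rw [d1, d2] at n1 n2
  have n3 := K.above (z := DD c y (1 + s)) (by rw [m1]; exact hρ.le)
  rw [f1, f2] at n3
  have := geo (T := fun x => T (z - x)) (B := fun x => B (z - x)) (x := z - x)
    (p := (c s).im) (d := x - (c y).re) (l := (c s).im - (c y).im) (K.lT.refl z) (K.lB.refl z)
    K.L0 K.L1 K.e0 (by simp only [sub_sub_cancel]; exact k1)
    (by
      rw [show z - (z - x + (x - (c y).re)) = (c y).re by ring,
        show (c s).im - ((c s).im - (c y).im) = (c y).im by ring]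
      exact k2)
    (by simp only [sub_sub_cancel]; exact hg) n1 n2 n3 S
  simp only [sub_sub_cancel] at this
  exact this

/-- the bound where the two graphs are close -/
theorem low_small (hT : Lip L T) (hB : Lip L B) (L0 : 0 ≤ L) (L1 : L < 1) (he : 0 < e) {x d l : ℝ}
    (S : ESq T B x d l) (h : (1 - L ^ 2) * (T x - B x) ≤ 8 * e ∨
      (1 - L ^ 2) * (T x - B x) ≤ 16 * L * e) :
    B (x + d + l) - 10 * e / (1 - L) ^ 2 ≤ T x + d - l := by
  have h1 := (abs_le.1 (S.h_le hT hB)).1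
  have h2 := S.l_le hT hB L0
  have hq : 0 < 1 - L ^ 2 := by nlinarith
  have q0 : 0 < 1 - L := by linarith
  have h3 := mul_le_mul_of_nonneg_left h2 hq.le
  have l0 := S.l0
  have key : (1 - L) ^ 2 * (2 * L * l) ≤ 10 * e := by
    have hp : (1 - L ^ 2) * ((1 - L ^ 2) * l) = (1 - L) ^ 2 * (1 + L) ^ 2 * l := by ring
    have hpos : 0 < (1 + L) ^ 2 := by positivity
    refine le_of_mul_le_mul_right (a := (1 + L) ^ 2) ?_ hpos
    have h4 : (1 - L) ^ 2 * (1 + L) ^ 2 * l ≤ 8 * e ∨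
        (1 - L) ^ 2 * (1 + L) ^ 2 * l ≤ 16 * L * e := by
      rw [← hp]
      exact h.imp (h3.trans) (h3.trans)
    rcases h4 with h4 | h4
    · have := mul_le_mul_of_nonneg_left h4 (by positivity : 0 ≤ 2 * L)
      nlinarith [mul_nonneg L0 he.le, mul_nonneg (mul_nonneg L0 L0) he.le]
    · have := mul_le_mul_of_nonneg_left h4 (by positivity : 0 ≤ 2 * L)
      nlinarith [mul_nonneg L0 he.le, mul_nonneg (mul_nonneg L0 L0) he.le,
        mul_nonneg (mul_nonneg L0 q0.le) he.le]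
  have : 2 * L * l ≤ 10 * e / (1 - L) ^ 2 := by
    rw [le_div_iff₀ (by positivity)]
    linarith
  linarith

/-- **Stability of Tao's theorem.** -/
theorem Nbr.main (K : Nbr c T B L e a b t1) (hab : a < b) (ha : T a = B a) (hb : T b = B b)
    {x0 M : ℝ} (hx0 : x0 ∈ Icc a b) (hM : 0 < M) (hg : M ≤ T x0 - B x0)
    (hδ : 3000 * e * (b - a) ≤ (1 - L) ^ 3 * M ^ 2) : ¬ NoSq (range c) := by
  intro nosq
  obtain ⟨θ, g, A, ho⟩ := exists_odd K.loop K.inj nosq
  have L0 := K.L0
  have L1 := K.L1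
  have e0 := K.e0
  have q0 : 0 < 1 - L := by linarith
  have hq : 0 < 1 - L ^ 2 := by nlinarith
  set m0 : ℝ := 8 * e / (1 - L ^ 2) with hm0
  have em : (1 - L ^ 2) * m0 = 8 * e := by rw [hm0]; field_simp
  have hm : 4 * e < (1 - L ^ 2) * (m0 - 2 * e) := by
    have : 0 ≤ L ^ 2 * e := by positivity
    nlinarith
  have hm2 : 2 * e < m0 := by
    have : (1 - L ^ 2) * (2 * e) ≤ 2 * e := by nlinarith [sq_nonneg L]
    by_contra hcon
    push Not at hcon
    nlinarith
  set η : ℝ := 10 * e / (1 - L) ^ 2 with hη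
  have η0 : 0 < η := by rw [hη]; positivity
  have eη : (1 - L) ^ 2 * η = 10 * e := by rw [hη]; field_simp
  have hηM : 300 * η * (b - a) ≤ (1 - L) * M ^ 2 := by
    refine le_of_mul_le_mul_right (a := (1 - L) ^ 2) ?_ (by positivity)
    have e1 : 300 * η * (b - a) * (1 - L) ^ 2 = 3000 * e * (b - a) := by
      linear_combination (300 * (b - a)) * eη
    rw [e1]
    linarith
  have hfin : ∀ {u : ℝ}, -(10 * e) ≤ (1 - L) * u → -η ≤ u := by
    intro u hu
    have h1 : 10 * e ≤ (1 - L) * η := by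
      rw [← eη]
      nlinarith [mul_nonneg (mul_nonneg q0.le L0) η0.le]
    by_contra hcon
    push Not at hcon
    nlinarith
  have gl : ∀ x, a ≤ x → T x - B x ≤ 2 * L * (x - a) := by
    intro x hx
    have h1 := (abs_le.1 (K.lT x a)).2
    have h2 := (abs_le.1 (K.lB x a)).1
    rw [abs_of_nonneg (by linarith)] at h1 h2
    linarith
  have gr : ∀ x, x ≤ b → T x - B x ≤ 2 * L * (b - x) := by
    intro x hx
    have h1 := (abs_le.1 (K.lT x b)).2
    have h2 := (abs_le.1 (K.lB x b)).1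
    rw [abs_sub_comm, abs_of_nonneg (by linarith)] at h1 h2
    linarith
  have hends : ∀ x ∈ Icc a b, x < a + m0 ∨ b - m0 < x → (1 - L ^ 2) * (T x - B x) ≤ 16 * L * e := by
    intro x hx h
    have : T x - B x ≤ 2 * L * m0 := by
      rcases h with h | h
      · exact (gl x hx.1).trans (mul_le_mul_of_nonneg_left (by linarith) (by positivity))
      · exact (gr x hx.2).trans (mul_le_mul_of_nonneg_left (by linarith) (by positivity))
    have := mul_le_mul_of_nonneg_left this hq.le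
    nlinarith
  by_cases h : Nf θ 0 t1 = Nf θ t1 1
  · have hg' : Nf θ t1 1 ≠ Nf θ 0 t1 + g := by
      rw [h]
      intro h'
      have : g = 0 := by linarith
      rw [this] at ho
      exact absurd ho (by decide)
    refine area_prop (T := fun x => T (a + b - x)) (B := fun x => B (a + b - x)) (K.lT.refl _)
      (K.lB.refl _) L0 L1 hab (by simp only [add_sub_cancel_left]; exact hb)
      (by simp only [add_sub_cancel_right]; exact ha) (fun x => K.BT _) (x0 := a + b - x0)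
      ⟨by linarith [hx0.2], by linarith [hx0.1]⟩ hM (by simp only [sub_sub_cancel]; exact hg) η0
      hηM fun x hx d l S => ?_
    obtain ⟨x', hx', rfl⟩ : ∃ x' ∈ Icc a b, a + b - x' = x :=
      ⟨a + b - x, ⟨by linarith [hx.2], by linarith [hx.1]⟩, by ring⟩
    simp only [sub_sub_cancel]
    have S' := S
    by_cases h1 : x' < a + m0 ∨ b - m0 < x'
    · have := low_small (K.lT.refl _) (K.lB.refl _) L0 L1 e0 S
        (Or.inr (by simp only [sub_sub_cancel]; exact hends x' hx' h1))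
      simp only [sub_sub_cancel] at this
      exact this
    by_cases h2 : (1 - L ^ 2) * (T x' - B x') ≤ 8 * e
    · have := low_small (K.lT.refl _) (K.lB.refl _) L0 L1 e0 S
        (Or.inl (by simp only [sub_sub_cancel]; exact h2))
      simp only [sub_sub_cancel] at this
      exact this
    push Not at h1 h2
    have := hfin (K.sqr_left A hg' (a + b) hm hm2 h1.1 h1.2 h2 S)
    linarith
  · refine area_prop K.lT K.lB L0 L1 hab ha hb K.BT hx0 hM hg η0 hηM fun x hx d l S => ?_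
    by_cases h1 : x < a + m0 ∨ b - m0 < x
    · exact low_small K.lT K.lB L0 L1 e0 S (Or.inr (hends x hx h1))
    by_cases h2 : (1 - L ^ 2) * (T x - B x) ≤ 8 * e
    · exact low_small K.lT K.lB L0 L1 e0 S (Or.inl h2)
    push Not at h1 h2
    have := hfin (K.sqr_right A h hm hm2 h1.1 h1.2 h2 S)
    linarith

end Pool.Agent.Y450.Stab
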