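import Pool.Agent.Y450.Stab.Cross

/-! Jordan curves made of two coarsely Lipschitz arcs. -/

set_option autoImplicit false
open Complex Set Topology Metric

namespace Pool.Agent.Y450.Stab

open Pool.Agent.H763R2 Pool.Agent.H763R2.An Pool.Agent.H765R3.Peg Pool.Agent.W675.Peg
open Pool.Agent.H763R2.Dm (NoSq)

/-- the lower envelope of the cones above the points `(X s, Y s)` -/
noncomputable def lo (L : ℝ) (X Y : ℝ → ℝ) (u v x : ℝ) : ℝ := ⨅ s : Icc u v, (Y s + L * |x - X s|)

variable {L : ℝ} {X Y : ℝ → ℝ} {u v : ℝ}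

theorem lo_bdd (L0 : 0 ≤ L) (hY : Continuous Y) (x : ℝ) :
    BddBelow (range fun s : Icc u v => Y s + L * |x - X s|) := by
  obtain ⟨m, hm⟩ := (isCompact_Icc (a := u) (b := v)).bddBelow_image hY.continuousOn
  refine ⟨m, ?_⟩
  rintro _ ⟨s, rfl⟩
  have h1 := hm (mem_image_of_mem Y s.2)
  have h2 := mul_nonneg L0 (abs_nonneg (x - X s))
  simp only
  linarith

theorem lo_le (L0 : 0 ≤ L) (hY : Continuous Y) {s : ℝ} (hs : s ∈ Icc u v) (x : ℝ) :
    lo L X Y u v x ≤ Y s + L * |x - X s| :=
  ciInf_le (lo_bdd L0 hY x) (⟨s, hs⟩ : Icc u v)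

theorem le_lo (huv : u ≤ v) {x m : ℝ} (h : ∀ s ∈ Icc u v, m ≤ Y s + L * |x - X s|) :
    m ≤ lo L X Y u v x := by
  have : Nonempty (Icc u v) := ⟨⟨u, le_rfl, huv⟩⟩
  exact le_ciInf fun s => h s s.2

theorem lo_lip (L0 : 0 ≤ L) (hY : Continuous Y) (huv : u ≤ v) : Lip L (lo L X Y u v) := by
  have key : ∀ x y, lo L X Y u v x - L * |x - y| ≤ lo L X Y u v y := by
    intro x y
    refine le_lo huv fun s hs => ?_
    have h1 := lo_le (X := X) L0 hY hs x
    have h2 : |x - X s| ≤ |x - y| + |y - X s| := abs_sub_le _ _ _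
    have h3 := mul_le_mul_of_nonneg_left h2 L0
    linarith
  intro x y
  have h1 := key x y
  have h2 := key y x
  rw [abs_sub_comm y x] at h2
  rw [abs_le]
  constructor <;> linarith

theorem Lip.max {f g : ℝ → ℝ} (hf : Lip L f) (hg : Lip L g) : Lip L (fun x => max (f x) (g x)) :=
  fun x y => (abs_max_sub_max_le_max _ _ _ _).trans (max_le (hf x y) (hg x y))

theorem Lip.minus {f : ℝ → ℝ} (hf : Lip L f) : Lip L (fun x => -f x) := by
  intro x y
  show |-f x - -f y| ≤ _
  rw [show -f x - -f y = -(f x - f y) by ring, abs_neg]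
  exact hf x y

/-- **Tao's theorem for coarsely Lipschitz arcs.** -/
theorem coarse {c : ℝ → ℂ} (K : Loop c) (J : Inj c) {ε M t1 : ℝ} (L0 : 0 ≤ L) (L1 : L < 1)
    (hε : 0 ≤ ε) (hM : 0 < M) (o1 : 0 < t1) (o2 : t1 < 1) (hab : (c 0).re < (c t1).re)
    (h1 : ∀ s ∈ Icc 0 t1, ∀ t ∈ Icc 0 t1,
      |(c s).im - (c t).im| ≤ L * |(c s).re - (c t).re| + ε)
    (h2 : ∀ s ∈ Icc t1 1, ∀ t ∈ Icc t1 1,
      |(c s).im - (c t).im| ≤ L * |(c s).re - (c t).re| + ε)
    (h3 : ∀ s ∈ Icc 0 t1, ∀ t ∈ Icc t1 1,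
      (c t).im ≤ (c s).im + L * |(c s).re - (c t).re| + ε)
    (hx : ∃ s ∈ Icc 0 t1, ∃ t ∈ Icc t1 1, (c s).re = (c t).re ∧ (c 0).re ≤ (c s).re ∧
      (c s).re ≤ (c t1).re ∧ M + 2 * ε ≤ (c s).im - (c t).im)
    (hδ : 3000 * ε * ((c t1).re - (c 0).re) ≤ (1 - L) ^ 3 * M ^ 2) : ¬ NoSq (range c) := by
  have c10 : c 1 = c 0 := by have := K.per 0; rwa [zero_add] at this
  have hre : Continuous fun t => (c t).re := continuous_re.comp K.cont
  have him : Continuous fun t => (c t).im := continuous_im.comp K.cont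
  set X : ℝ → ℝ := fun t => (c t).re with hX
  set Y : ℝ → ℝ := fun t => (c t).im with hY
  set Y' : ℝ → ℝ := fun t => -(c t).im with hY'
  have him' : Continuous Y' := him.neg
  have hw : 0 < (c t1).re - (c 0).re := by linarith
  set e : ℝ := (1 - L) ^ 3 * M ^ 2 / (3000 * ((c t1).re - (c 0).re)) with he
  have q3 : 0 < (1 - L) ^ 3 := pow_pos (by linarith) 3
  have e0 : 0 < e := by rw [he]; positivity
  have ee : 3000 * e * ((c t1).re - (c 0).re) = (1 - L) ^ 3 * M ^ 2 := by
    rw [he]; field_simp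
  have εe : ε ≤ e := by
    rw [he, le_div_iff₀ (by positivity)]
    linarith
  set T0 : ℝ → ℝ := lo L X Y 0 t1 with hT0
  set B0 : ℝ → ℝ := fun x => -lo L X Y' t1 1 x with hB0
  have lT0 : Lip L T0 := lo_lip L0 him o1.le
  have lB0 : Lip L B0 := (lo_lip L0 him' o2.le).minus
  have hBT : ∀ x, B0 x ≤ T0 x + ε := by
    intro x
    have : -T0 x - ε ≤ lo L X Y' t1 1 x := by
      refine le_lo o2.le fun t ht => ?_
      have : -(Y' t + L * |x - X t|) - ε ≤ T0 x := by
        refine le_lo o1.le fun s hs => ?_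
        have k1 := h3 s hs t ht
        have k2 : |X s - X t| ≤ |x - X s| + |x - X t| := by
          have := abs_sub_le (X s) x (X t)
          rwa [abs_sub_comm (X s) x] at this
        have k3 := mul_le_mul_of_nonneg_left k2 L0
        simp only [hX, hY, hY'] at k3 ⊢
        linarith
      linarith
    simp only [hB0]
    linarith
  have top1 : ∀ s ∈ Icc 0 t1, T0 (c s).re ≤ (c s).im := by
    intro s hs
    have := lo_le (X := X) L0 him hs (c s).re
    simp only [hX, sub_self, abs_zero, mul_zero, add_zero] at this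
    exact this
  have top2 : ∀ s ∈ Icc 0 t1, (c s).im - ε ≤ T0 (c s).re := by
    intro s hs
    refine le_lo o1.le fun t ht => ?_
    have := (abs_le.1 (h1 s hs t ht)).2
    simp only [hX, hY]
    linarith
  have bot1 : ∀ t ∈ Icc t1 1, (c t).im ≤ B0 (c t).re := by
    intro t ht
    have := lo_le (X := X) L0 him' ht (c t).re
    simp only [hX, sub_self, abs_zero, mul_zero, add_zero] at this
    simp only [hB0]
    simp only [hY'] at this
    linarith
  have bot2 : ∀ t ∈ Icc t1 1, B0 (c t).re ≤ (c t).im + ε := by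
    intro t ht
    have : -(c t).im - ε ≤ lo L X Y' t1 1 (c t).re := by
      refine le_lo o2.le fun s hs => ?_
      have := (abs_le.1 (h2 t ht s hs)).1
      simp only [hX, hY']
      linarith
    simp only [hB0]
    linarith
  have N : Nbr c (fun x => max (T0 x) (B0 x)) B0 L e (c 0).re (c t1).re t1 :=
    { loop := K
      inj := J
      lT := lT0.max lB0
      lB := lB0
      L0 := L0
      L1 := L1
      e0 := e0
      BT := fun x => le_max_right _ _
      o1 := o1
      o2 := o2
      top := fun s hs => by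
        have k1 := top1 s hs
        have k2 := top2 s hs
        have k3 := hBT (c s).re
        rw [abs_le]
        constructor
        · have : max (T0 (c s).re) (B0 (c s).re) ≤ (c s).im + ε := max_le (by linarith) (by linarith)
          linarith
        · have := le_max_left (T0 (c s).re) (B0 (c s).re)
          linarith
      bot := fun t ht => by
        have k1 := bot1 t ht
        have k2 := bot2 t ht
        rw [abs_le]
        constructor <;> linarith
      lft := by linarith
      rgt := by linarith }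
  obtain ⟨s, hs, t, ht, est, x1, x2, hgap⟩ := hx
  refine N.main hab ?_ ?_ (x0 := (c s).re) (M := M) ⟨x1, x2⟩ hM ?_ ee.le
  · have k1 := top1 0 ⟨le_rfl, o1.le⟩
    have k2 := bot1 1 ⟨o2.le, le_rfl⟩
    rw [c10] at k2
    exact max_eq_right (by linarith)
  · have k1 := top1 t1 ⟨o1.le, le_rfl⟩
    have k2 := bot1 t1 ⟨le_rfl, o2.le⟩
    exact max_eq_right (by linarith)
  · have k1 := top2 s hs
    have k2 := bot2 t ht
    rw [← est] at k2
    have k3 := le_max_left (T0 (c s).re) (B0 (c s).re)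
    linarith

end Pool.Agent.Y450.Stab
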