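import Pool.Agent.Y450.Stab.Layer

/-! Squares with three vertices on two graphs of Lipschitz constant less than `1`. -/

set_option autoImplicit false
open MeasureTheory intervalIntegral Set

namespace Pool.Agent.Y450.Stab

/-- a square with upper left vertex `(x, T x)`, upper right vertex `(x + l, T x + d)` on the graph of
`T`, lower left vertex `(x + d, T x - l)` on the graph of `B` and lower right vertex
`(x + d + l, T x + d - l)` -/
structure ESq (T B : ℝ → ℝ) (x d l : ℝ) : Prop where
  l0 : 0 ≤ l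
  h3 : T (x + l) = T x + d
  h2 : B (x + d) = T x - l

/-- the potential -/
noncomputable def Pot (T B : ℝ → ℝ) (x d l : ℝ) : ℝ :=
  (d ^ 2 - l ^ 2) / 2 + (Prim T (x + l) - Prim T x) - (Prim B (x + d + l) - Prim B (x + d))

variable {T B : ℝ → ℝ} {L : ℝ}

theorem ESq.ex (hT : Lip L T) (hB : Lip L B) (L0 : 0 ≤ L) (L1 : L < 1) {x : ℝ} (h : B x ≤ T x) :
    ∃ d l, ESq T B x d l := by
  have hc : Continuous fun l => T x - l - B (x + (T (x + l) - T x)) := by
    have := hT.cont
    have := hB.cont
    fun_prop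
  have hq : 0 < 1 - L ^ 2 := by nlinarith
  have hl : 0 ≤ (T x - B x) / (1 - L ^ 2) := div_nonneg (by linarith) hq.le
  have e : (T x - B x) / (1 - L ^ 2) * (1 - L ^ 2) = T x - B x := div_mul_cancel₀ _ hq.ne'
  set l1 := (T x - B x) / (1 - L ^ 2) with hl1
  have f0 : 0 ≤ T x - 0 - B (x + (T (x + 0) - T x)) := by
    rw [add_zero, sub_self, add_zero]; linarith
  have f1 : T x - l1 - B (x + (T (x + l1) - T x)) ≤ 0 := by
    have a1 := (abs_le.1 (hB (x + (T (x + l1) - T x)) x)).1
    rw [show x + (T (x + l1) - T x) - x = T (x + l1) - T x by ring] at a1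
    have a2 := hT (x + l1) x
    rw [show x + l1 - x = l1 by ring, abs_of_nonneg hl] at a2
    have a3 := mul_le_mul_of_nonneg_left a2 L0
    nlinarith
  obtain ⟨l, hl, e⟩ := intermediate_value_Icc' hl hc.continuousOn
    (show (0:ℝ) ∈ Icc _ _ from ⟨f1, f0⟩)
  simp only at e
  exact ⟨T (x + l) - T x, l, hl.1, by ring, by linarith⟩

theorem ESq.d_le (hT : Lip L T) {x d l : ℝ} (S : ESq T B x d l) : |d| ≤ L * l := by
  have := hT (x + l) x
  rw [S.h3, show T x + d - T x = d by ring, show x + l - x = l by ring, abs_of_nonneg S.l0] at this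
  exact this

theorem ESq.l_le (hT : Lip L T) (hB : Lip L B) (L0 : 0 ≤ L) {x d l : ℝ} (S : ESq T B x d l) :
    (1 - L ^ 2) * l ≤ T x - B x := by
  have h1 := mul_le_mul_of_nonneg_left (S.d_le hT) L0
  have h2 := (abs_le.1 (hB (x + d) x)).1
  rw [show x + d - x = d by ring, S.h2] at h2
  nlinarith

/-- the height of the last vertex above the lower graph -/
theorem ESq.h_le (hT : Lip L T) (hB : Lip L B) {x d l : ℝ} (S : ESq T B x d l) :
    |T x + d - l - B (x + d + l)| ≤ 2 * L * l := by
  have h1 := abs_le.1 (S.d_le hT)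
  have h2 := hB (x + d + l) (x + d)
  rw [show x + d + l - (x + d) = l by ring, S.h2, abs_of_nonneg S.l0] at h2
  have h2 := abs_le.1 h2
  rw [abs_le]
  constructor <;> linarith [h1.1, h1.2, h2.1, h2.2]

theorem ESq.gap_le (hT : Lip L T) (hB : Lip L B) (L0 : 0 ≤ L) (L1 : L < 1) {x d l : ℝ}
    (S : ESq T B x d l) : T (x + d + l) - B (x + d + l) ≤ 4 * l := by
  have h1 := S.d_le hT
  have h2 := (abs_le.1 (S.h_le hT hB)).2
  have h3 := (abs_le.1 (hT (x + d + l) (x + l))).2
  rw [show x + d + l - (x + l) = d by ring, S.h3] at h3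
  have h4 := mul_le_mul_of_nonneg_left h1 L0
  have l0 := S.l0
  have h5 : L * (L * l) ≤ l := by nlinarith [mul_nonneg L0 l0]
  have h6 : L * l ≤ l := by nlinarith
  nlinarith

/-- the change of the parameters -/
theorem ESq.steps (hT : Lip L T) (hB : Lip L B) (L0 : 0 ≤ L) (L1 : L < 1) {x d l r d' l' : ℝ}
    (S : ESq T B x d l) (S' : ESq T B (x + r) d' l') (hr : 0 ≤ r) :
    (1 - L) * (|d' - d| + |l' - l|) ≤ 4 * r := by
  have t1 := hT (x + r) x
  have t2 := hT (x + r + l') (x + l)
  have t3 := hB (x + r + d') (x + d)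
  rw [show x + r - x = r by ring, abs_of_nonneg hr] at t1
  rw [S'.h3, S.h3] at t2
  rw [S'.h2, S.h2] at t3
  have s2 : |x + r + l' - (x + l)| ≤ r + |l' - l| := by
    rw [show x + r + l' - (x + l) = r + (l' - l) by ring]
    exact (abs_add_le _ _).trans (by rw [abs_of_nonneg hr])
  have s3 : |x + r + d' - (x + d)| ≤ r + |d' - d| := by
    rw [show x + r + d' - (x + d) = r + (d' - d) by ring]
    exact (abs_add_le _ _).trans (by rw [abs_of_nonneg hr])
  have t2 := t2.trans (mul_le_mul_of_nonneg_left s2 L0)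
  have t3 := t3.trans (mul_le_mul_of_nonneg_left s3 L0)
  have hd : |d' - d| ≤ 2 * L * r + L * |l' - l| := by
    rw [abs_le] at t1 t2 ⊢
    constructor <;> linarith [t1.1, t1.2, t2.1, t2.2]
  have hl : |l' - l| ≤ 2 * L * r + L * |d' - d| := by
    rw [abs_le] at t1 t3 ⊢
    constructor <;> linarith [t1.1, t1.2, t3.1, t3.2]
  nlinarith

/-- linear algebra of the cone property -/
theorem cone_aux {m a b r : ℝ} (hr : 0 < r) (h1 : |m| ≤ r) (h2 : |m - b + r| ≤ |a|)
    (h3 : |m + a - r| ≤ |b|) : r - a - b ≤ |m + a - b| := by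
  have h1 := abs_le.1 h1
  have h2 := abs_le.1 h2
  have h3 := abs_le.1 h3
  have k1 := le_abs_self (m + a - b)
  have k2 := neg_le_abs (m + a - b)
  rcases le_total 0 a with ha | ha
  · rw [abs_of_nonneg ha] at h2
    rcases le_total 0 b with hb | hb
    · rw [abs_of_nonneg hb] at h3
      linarith [abs_nonneg (m + a - b)]
    · rw [abs_of_nonpos hb] at h3
      linarith
  · rw [abs_of_nonpos ha] at h2
    rcases le_total 0 b with hb | hb
    · rw [abs_of_nonneg hb] at h3
      linarith
    · rw [abs_of_nonpos hb] at h3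
      linarith

/-- the last vertex never moves horizontally to the left -/
theorem ESq.cone (hT : Lip L T) (hB : Lip L B) (L1 : L < 1) {x d l r d' l' : ℝ}
    (S : ESq T B x d l) (S' : ESq T B (x + r) d' l') (hr : 0 < r) :
    (x + d + l) - (x + r + d' + l') ≤ |(T (x + r) + d' - l') - (T x + d - l)| := by
  have t1 := hT (x + r) x
  have t2 := hT (x + r + l') (x + l)
  have t3 := hB (x + r + d') (x + d)
  rw [S'.h3, S.h3] at t2
  rw [S'.h2, S.h2] at t3
  have q : ∀ z : ℝ, L * |z| ≤ |z| := fun z => by nlinarith [abs_nonneg z]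
  have t1 := t1.trans (q _)
  have t2 := t2.trans (q _)
  have t3 := t3.trans (q _)
  rw [show x + r - x = r by ring, abs_of_pos hr] at t1
  have := cone_aux (m := T (x + r) - T x) (a := r + (d' - d)) (b := r + (l' - l)) hr t1
    (by
      rw [show T (x + r) - T x - (r + (l' - l)) + r = T (x + r) - l' - (T x - l) by ring,
        show r + (d' - d) = x + r + d' - (x + d) by ring]
      exact t3)
    (by
      rw [show T (x + r) - T x + (r + (d' - d)) - r = T (x + r) + d' - (T x + d) by ring,
        show r + (l' - l) = x + r + l' - (x + l) by ring]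
      exact t2)
  rw [show T (x + r) - T x + (r + (d' - d)) - (r + (l' - l)) =
    (T (x + r) + d' - l') - (T x + d - l) by ring] at this
  linarith

/-- lower bound for the potential -/
theorem ESq.pot_lower (hT : Lip L T) (hB : Lip L B) {x d l : ℝ} (S : ESq T B x d l) :
    (1 - L) * l ^ 2 / 2 + l * (T x + d - l - B (x + d + l)) / 2 ≤ Pot T B x d l := by
  have k1 := (abs_le.1 (hT.trap (a := x) (b := x + l) (by linarith [S.l0]))).1
  have k2 := (abs_le.1 (hB.trap (a := x + d) (b := x + d + l) (by linarith [S.l0]))).2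
  rw [S.h3, show x + l - x = l by ring] at k1
  rw [S.h2, show x + d + l - (x + d) = l by ring] at k2
  unfold Pot
  nlinarith [sq_nonneg d]

/-- a step of the potential -/
theorem ESq.pot_step (hT : Lip L T) (hB : Lip L B) (L1 : L < 1) {x d l r d' l' : ℝ}
    (S : ESq T B x d l) (S' : ESq T B (x + r) d' l') :
    (T x + d - l + (T (x + r) + d' - l')) / 2 * (x + r + d' + l' - (x + d + l)) -
      (Prim B (x + r + d' + l') - Prim B (x + d + l)) -
      (r ^ 2 + (r + (d' - d)) ^ 2 + (r + (l' - l)) ^ 2) / 4 ≤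
    Pot T B (x + r) d' l' - Pot T B x d l := by
  have k1 := (abs_le.1 (hT.trap' x (x + r))).2
  have k2 := (abs_le.1 (hB.trap' (x + d) (x + r + d'))).1
  have k3 := (abs_le.1 (hT.trap' (x + l) (x + r + l'))).1
  rw [S'.h3, S.h3] at k3
  rw [S'.h2, S.h2] at k2
  rw [show x + r - x = r by ring] at k1
  rw [show x + r + d' - (x + d) = r + (d' - d) by ring] at k2
  rw [show x + r + l' - (x + l) = r + (l' - l) by ring] at k3
  have m1 := mul_le_mul_of_nonneg_right L1.le (sq_nonneg r)
  have m2 := mul_le_mul_of_nonneg_right L1.le (sq_nonneg (r + (d' - d)))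
  have m3 := mul_le_mul_of_nonneg_right L1.le (sq_nonneg (r + (l' - l)))
  have id1 : (d' ^ 2 - l' ^ 2) / 2 - (d ^ 2 - l ^ 2) / 2 =
      r * (T x + T (x + r)) / 2 - (r + (d' - d)) * ((T x - l) + (T (x + r) - l')) / 2 +
      (T x + d - l + (T (x + r) + d' - l')) / 2 * (x + r + d' + l' - (x + d + l)) -
      (r + (l' - l)) * ((T x + d) + (T (x + r) + d')) / 2 := by
    ring
  unfold Pot
  linarith

end Pool.Agent.Y450.Stab
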