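import Pool.Agent.Y450.Stab.AreaMain
import Pool.Agent.W675.PegC

/-! Jordan curves near a curve made of two graphs. -/

set_option autoImplicit false
open Complex Set Topology Metric

namespace Pool.Agent.Y450.Stab

open Pool.Agent.H763R2 Pool.Agent.H763R2.An Pool.Agent.H765R3.Peg Pool.Agent.W675.Peg
open Pool.Agent.H763R2.Dm (NoSq)

/-- a Jordan curve near the curve made of the graphs of `T` and `B` over `[a, b]` -/
structure Nbr (c : ℝ → ℂ) (T B : ℝ → ℝ) (L e a b t1 : ℝ) : Prop where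
  loop : Loop c
  inj : Inj c
  lT : Lip L T
  lB : Lip L B
  L0 : 0 ≤ L
  L1 : L < 1
  e0 : 0 < e
  BT : ∀ x, B x ≤ T x
  o1 : 0 < t1
  o2 : t1 < 1
  top : ∀ t ∈ Icc 0 t1, |(c t).im - T (c t).re| ≤ e
  bot : ∀ t ∈ Icc t1 1, |(c t).im - B (c t).re| ≤ e
  lft : (c 0).re ≤ a + e
  rgt : b - e ≤ (c t1).re

variable {c : ℝ → ℂ} {T B : ℝ → ℝ} {L e a b t1 : ℝ}

theorem Nbr.near (K : Nbr c T B L e a b t1) {z : ℂ} (hz : z ∈ range c) :
    |z.im - T z.re| ≤ e ∨ |z.im - B z.re| ≤ e := by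
  obtain ⟨t, ht, rfl⟩ : ∃ t ∈ Ico (0:ℝ) 1, c t = z := by
    obtain ⟨t, rfl⟩ := hz
    refine ⟨Int.fract t, ⟨Int.fract_nonneg t, Int.fract_lt_one t⟩, ?_⟩
    have := K.loop.per_int (Int.fract t) ⌊t⌋
    rw [Int.fract_add_floor] at this
    exact this.symm
  rcases le_total t t1 with k1 | k1
  · exact Or.inl (K.top t ⟨ht.1, k1⟩)
  · exact Or.inr (K.bot t ⟨k1, ht.2.le⟩)

theorem Nbr.le_top (K : Nbr c T B L e a b t1) {z : ℂ} (hz : z ∈ range c) :
    z.im ≤ T z.re + e := by
  have := K.BT z.re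
  rcases K.near hz with h | h
  · linarith [(abs_le.1 h).2]
  · linarith [(abs_le.1 h).2]

theorem Nbr.bot_le (K : Nbr c T B L e a b t1) {z : ℂ} (hz : z ∈ range c) :
    B z.re - e ≤ z.im := by
  have := K.BT z.re
  rcases K.near hz with h | h
  · linarith [(abs_le.1 h).1]
  · linarith [(abs_le.1 h).1]

theorem Nbr.out_up (K : Nbr c T B L e a b t1) {v : ℂ} (h : T v.re + e < v.im) : mgc c v < 0 := by
  have hno : ∀ s : ℝ, 0 ≤ s → ∀ t, c t ≠ v + s * I := by
    intro s hs t ht
    have h1 := K.le_top (mem_range_self t)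
    have e1 : (c t).re = v.re := by rw [ht]; simp
    have e2 : (c t).im = v.im + s := by rw [ht]; simp
    rw [e1, e2] at h1
    linarith
  have h1 : mgc c v ≤ 0 := mgc_le_of_dir K.loop (v := I) (by simp)
    fun s hs t ht => absurd ht (hno s hs t)
  refine lt_of_le_of_ne h1 fun h0 => ?_
  obtain ⟨t, ht⟩ := ((mgc_sg K.loop).zero K.loop).1 h0
  exact hno 0 le_rfl t (by rw [ht]; simp)

theorem Nbr.out_dn (K : Nbr c T B L e a b t1) {v : ℂ} (h : v.im < B v.re - e) : mgc c v < 0 := by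
  have hno : ∀ s : ℝ, 0 ≤ s → ∀ t, c t ≠ v + s * -I := by
    intro s hs t ht
    have h1 := K.bot_le (mem_range_self t)
    have e1 : (c t).re = v.re := by rw [ht]; simp
    have e2 : (c t).im = v.im - s := by rw [ht]; simp; ring
    rw [e1, e2] at h1
    linarith
  have h1 : mgc c v ≤ 0 := mgc_le_of_dir K.loop (v := -I) (by simp)
    fun s hs t ht => absurd ht (hno s hs t)
  refine lt_of_le_of_ne h1 fun h0 => ?_
  obtain ⟨t, ht⟩ := ((mgc_sg K.loop).zero K.loop).1 h0
  exact hno 0 le_rfl t (by rw [ht]; simp)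

theorem DD_re' (c : ℝ → ℂ) (x y : ℝ) : (DD c x y).re = (c x).re - ((c y).im - (c x).im) := by
  rw [DD_eq]; simp; ring
theorem DD_im' (c : ℝ → ℂ) (x y : ℝ) : (DD c x y).im = (c x).im + ((c y).re - (c x).re) := by
  rw [DD_eq]; simp
theorem CC_re' (c : ℝ → ℂ) (x y : ℝ) : (CC c x y).re = (c y).re - ((c y).im - (c x).im) := by
  rw [CC_eq]; simp; ring
theorem CC_im' (c : ℝ → ℂ) (x y : ℝ) : (CC c x y).im = (c y).im + ((c y).re - (c x).re) := by
  rw [CC_eq]; simp

/-- high above a point near the upper graph -/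
theorem Nbr.up_of (K : Nbr c T B L e a b t1) {P z : ℂ} {w : ℝ} (hP : |P.im - T P.re| ≤ e)
    (hz : |z.re - P.re| ≤ L * w + 2 * e) (hi : z.im = P.im + w) (hw : 4 * e < (1 - L ^ 2) * w) :
    mgc c z < 0 := by
  apply K.out_up
  have h1 := (abs_le.1 (K.lT z.re P.re)).2
  have h2 := mul_le_mul_of_nonneg_left hz K.L0
  have h3 := mul_le_mul_of_nonneg_right K.L1.le K.e0.le
  have h4 := (abs_le.1 hP).1
  rw [hi]
  linarith

/-- far below a point near the lower graph -/
theorem Nbr.dn_of (K : Nbr c T B L e a b t1) {P z : ℂ} {w : ℝ} (hP : |P.im - B P.re| ≤ e)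
    (hz : |z.re - P.re| ≤ L * w + 2 * e) (hi : z.im = P.im - w) (hw : 4 * e < (1 - L ^ 2) * w) :
    mgc c z < 0 := by
  apply K.out_dn
  have h1 := (abs_le.1 (K.lB z.re P.re)).1
  have h2 := mul_le_mul_of_nonneg_left hz K.L0
  have h3 := mul_le_mul_of_nonneg_right K.L1.le K.e0.le
  have h4 := (abs_le.1 hP).2
  rw [hi]
  linarith

/-- two points near the upper graph -/
theorem Nbr.slope (K : Nbr c T B L e a b t1) {P Q : ℂ} (hP : |P.im - T P.re| ≤ e)
    (hQ : |Q.im - T Q.re| ≤ e) : |Q.im - P.im| ≤ L * |Q.re - P.re| + 2 * e := by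
  have h1 := abs_le.1 (K.lT Q.re P.re)
  have hP := abs_le.1 hP
  have hQ := abs_le.1 hQ
  rw [abs_le]
  constructor <;> linarith [h1.1, h1.2, hP.1, hP.2, hQ.1, hQ.2]

/-- chord to the right, first further vertex -/
theorem Nbr.D_right (K : Nbr c T B L e a b t1) {x y : ℝ} (hP : |(c x).im - T (c x).re| ≤ e)
    (hQ : |(c y).im - T (c y).re| ≤ e) (hw : 4 * e < (1 - L ^ 2) * ((c y).re - (c x).re))
    : mgc c (DD c x y) < 0 := by
  have hs := K.slope hP hQ
  have hq : 0 < 1 - L ^ 2 := by nlinarith [K.L0, K.L1]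
  have hw0 : 0 < (c y).re - (c x).re := by
    by_contra hcon
    push Not at hcon
    have := mul_nonneg_of_nonpos_of_nonpos (by linarith : -(1 - L ^ 2) ≤ 0) hcon
    linarith [K.e0]
  rw [abs_of_pos hw0] at hs
  refine K.up_of hP (w := (c y).re - (c x).re) ?_ (DD_im' c x y) hw
  rw [DD_re', show (c x).re - ((c y).im - (c x).im) - (c x).re = -((c y).im - (c x).im) by ring,
    abs_neg]
  exact hs

/-- chord to the left, second further vertex -/
theorem Nbr.E_left (K : Nbr c T B L e a b t1) {x y : ℝ} (hP : |(c x).im - T (c x).re| ≤ e)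
    (hQ : |(c y).im - T (c y).re| ≤ e) (hQ' : |(c y).im - B (c y).re| ≤ e)
    (hw : 4 * e < (1 - L ^ 2) * ((c x).re - (c y).re)) : mgc c (CC c x y) < 0 := by
  have hs := K.slope hQ hP
  have hq : 0 < 1 - L ^ 2 := by nlinarith [K.L0, K.L1]
  have hw0 : 0 < (c x).re - (c y).re := by
    by_contra hcon
    push Not at hcon
    have := mul_nonneg_of_nonpos_of_nonpos (by linarith : -(1 - L ^ 2) ≤ 0) hcon
    linarith [K.e0]
  rw [abs_of_pos hw0] at hs
  refine K.dn_of hQ' (w := (c x).re - (c y).re) ?_ (by rw [CC_im']; ring) hw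
  rw [CC_re', show (c y).re - ((c y).im - (c x).im) - (c y).re = (c x).im - (c y).im by ring]
  exact hs

/-- chord to the left, first further vertex -/
theorem Nbr.D_left (K : Nbr c T B L e a b t1) {x y : ℝ} (hP : |(c x).im - T (c x).re| ≤ e)
    (hP' : |(c x).im - B (c x).re| ≤ e) (hQ : |(c y).im - T (c y).re| ≤ e)
    (hw : 4 * e < (1 - L ^ 2) * ((c x).re - (c y).re)) : mgc c (DD c x y) < 0 := by
  have hs := K.slope hQ hP
  have hq : 0 < 1 - L ^ 2 := by nlinarith [K.L0, K.L1]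
  have hw0 : 0 < (c x).re - (c y).re := by
    by_contra hcon
    push Not at hcon
    have := mul_nonneg_of_nonpos_of_nonpos (by linarith : -(1 - L ^ 2) ≤ 0) hcon
    linarith [K.e0]
  rw [abs_of_pos hw0] at hs
  refine K.dn_of hP' (w := (c x).re - (c y).re) ?_ (by rw [DD_im']; ring) hw
  rw [DD_re', show (c x).re - ((c y).im - (c x).im) - (c x).re = (c x).im - (c y).im by ring]
  exact hs

/-- points inside the curve -/
theorem Nbr.above (K : Nbr c T B L e a b t1) {z : ℂ} (hz : 0 ≤ mgc c z) : B z.re - e ≤ z.im := by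
  by_contra hcon
  push Not at hcon
  exact absurd hz (not_le.2 (K.out_dn hcon))

/-- from the approximate squares to the exact ones -/
theorem geo {x p d l d' l' : ℝ} (hT : Lip L T) (hB : Lip L B) (L0 : 0 ≤ L) (L1 : L < 1)
    (he : 0 < e) (h1 : |p - T x| ≤ e) (h2 : |p - l - B (x + d)| ≤ e)
    (hg : 8 * e < (1 - L ^ 2) * (T x - B x))
    (h3 : |p + d - T (x + l)| ≤ e ∨ |p + d - B (x + l)| ≤ e) (h3' : p + d ≤ T (x + l) + e)
    (h4 : B (x + d + l) - e ≤ p - l + d) (S : ESq T B x d' l') :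
    -(10 * e) ≤ (1 - L) * (T x + d' - l' - B (x + d' + l')) := by
  have hq : 0 < 1 - L ^ 2 := by nlinarith
  have a1 := abs_le.1 h1
  have a2 := abs_le.1 h2
  have tT := abs_le.1 (hT (x + l) x)
  have tB := abs_le.1 (hB (x + d) x)
  have tB2 := abs_le.1 (hB (x + d + l) (x + d))
  rw [show x + l - x = l by ring] at tT
  rw [show x + d - x = d by ring] at tB
  rw [show x + d + l - (x + d) = l by ring] at tB2
  have kd : |d| ≤ L * |l| + 2 * e := by
    rw [abs_le]
    constructor <;> linarith [a1.1, a1.2, a2.1, a2.2, tT.1, tT.2, tB2.1, tB2.2]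
  have kd' := mul_le_mul_of_nonneg_left kd L0
  have Le := mul_le_mul_of_nonneg_right L1.le he.le
  have gp : 8 * e < T x - B x := by
    have hp : 0 < T x - B x := by
      by_contra hcon
      push Not at hcon
      have := mul_nonneg hq.le (by linarith : 0 ≤ -(T x - B x))
      linarith
    have := mul_nonneg (sq_nonneg L) hp.le
    linarith
  have l0 : 0 ≤ l := by
    by_contra hl0
    push Not at hl0
    rw [abs_of_neg hl0] at kd'
    have := mul_nonneg hq.le (by linarith : 0 ≤ -l)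
    linarith [a1.1, a2.2, tB.1, tB.2]
  rw [abs_of_nonneg l0] at kd kd'
  have kl : T x - B x ≤ (1 + L ^ 2) * l + 4 * e := by
    linarith [a1.1, a2.2, tB.1, tB.2]
  rcases h3 with h3 | h3
  · have a3 := abs_le.1 h3
    have t2 := abs_le.1 (hT (x + l') (x + l))
    have t3 := abs_le.1 (hB (x + d') (x + d))
    have t4 := abs_le.1 (hB (x + d' + l') (x + d + l))
    rw [S.h3, show x + l' - (x + l) = l' - l by ring] at t2
    rw [S.h2, show x + d' - (x + d) = d' - d by ring] at t3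
    have e4 : |x + d' + l' - (x + d + l)| ≤ |d' - d| + |l' - l| := by
      rw [show x + d' + l' - (x + d + l) = (d' - d) + (l' - l) by ring]
      exact abs_add_le _ _
    have e5 := mul_le_mul_of_nonneg_left e4 L0
    have hd : |d' - d| ≤ L * |l' - l| + 2 * e := by
      rw [abs_le]
      constructor <;> linarith [a1.1, a1.2, a3.1, a3.2, t2.1, t2.2]
    have hl : |l' - l| ≤ L * |d' - d| + 2 * e := by
      rw [abs_le]
      constructor <;> linarith [a1.1, a1.2, a2.1, a2.2, t3.1, t3.2]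
    have hs : (1 - L) * (|d' - d| + |l' - l|) ≤ 4 * e := by linarith
    have b1 := abs_le.1 (le_refl |d' - d|)
    have b2 := abs_le.1 (le_refl |l' - l|)
    have hlow : -(2 * e) - (1 + L) * (|d' - d| + |l' - l|) ≤
        T x + d' - l' - B (x + d' + l') := by
      linarith [a1.1, a1.2, t4.1, t4.2, b1.1, b1.2, b2.1, b2.2]
    have q0 : 0 ≤ 1 - L := by linarith
    have m1 := mul_le_mul_of_nonneg_left hlow q0
    have m2 := mul_le_mul_of_nonneg_left hs (by linarith : 0 ≤ 1 + L)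
    have m3 := mul_nonneg L0 he.le
    linarith
  · exfalso
    have a3 := abs_le.1 h3
    have uB := abs_le.1 (hB (x + d + l) (x + l))
    rw [show x + d + l - (x + l) = d by ring] at uB
    have q1 : (1 - L ^ 2) * l ≤ 4 * e := by
      linarith [uB.1, a3.2]
    have m1 := mul_le_mul_of_nonneg_left kl hq.le
    have m2 := mul_le_mul_of_nonneg_left q1 (by positivity : 0 ≤ 1 + L ^ 2)
    linarith

end Pool.Agent.Y450.Stab
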