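import Pool.Agent.Y450.Stab.Basic

/-! The sum of the areas under a path that never moves to the left on the same level. -/

set_option autoImplicit false
open MeasureTheory intervalIntegral Set

namespace Pool.Agent.Y450.Stab

/-- the function which assigns to a height a lower bound for the later abscissas on this height -/
noncomputable def Lay (C : ℝ) (X H : ℕ → ℝ) : ℕ → ℝ → ℝ
  | 0 => fun t => X 0 - C * |t - H 0|
  | k + 1 => fun t => max (Lay C X H k t) (X (k + 1) - C * |t - H (k + 1)|)

variable {C : ℝ} {X H : ℕ → ℝ}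

theorem Lay.self (k : ℕ) (t : ℝ) : X k - C * |t - H k| ≤ Lay C X H k t := by
  cases k with
  | zero => exact le_rfl
  | succ k => exact le_max_right _ _

theorem Lay.mono (k : ℕ) (t : ℝ) : Lay C X H k t ≤ Lay C X H (k + 1) t := le_max_left _ _

theorem Lay.cone_lip (hC : 0 ≤ C) (x h : ℝ) : Lip C (fun t => x - C * |t - h|) := by
  intro s t
  have h1 : |(|t - h| - |s - h|)| ≤ |s - t| := by
    refine (abs_abs_sub_abs_le _ _).trans ?_
    rw [show t - h - (s - h) = -(s - t) by ring, abs_neg]
  have e : x - C * |s - h| - (x - C * |t - h|) = C * (|t - h| - |s - h|) := by ring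
  show |x - C * |s - h| - (x - C * |t - h|)| ≤ C * |s - t|
  rw [e, abs_mul, abs_of_nonneg hC]
  exact mul_le_mul_of_nonneg_left h1 hC

theorem Lay.lip (hC : 0 ≤ C) (k : ℕ) : Lip C (Lay C X H k) := by
  induction k with
  | zero => exact Lay.cone_lip hC _ _
  | succ k ih =>
    intro s t
    have h1 := ih s t
    have h2 := Lay.cone_lip hC (X (k + 1)) (H (k + 1)) s t
    simp only at h2
    show |max (Lay C X H k s) (X (k + 1) - C * |s - H (k + 1)|) -
      max (Lay C X H k t) (X (k + 1) - C * |t - H (k + 1)|)| ≤ C * |s - t|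
    exact (abs_max_sub_max_le_max _ _ _ _).trans (max_le h1 h2)

theorem Lay.le {n : ℕ} (hc : ∀ j k, j ≤ k → k ≤ n → X j - C * |H k - H j| ≤ X k) (k m : ℕ)
    (hk : k ≤ m) (hm : m ≤ n) : Lay C X H k (H m) ≤ X m := by
  induction k with
  | zero => exact hc 0 m hk hm
  | succ k ih => exact max_le (ih (by omega)) (hc (k + 1) m hk hm)

/-- the sum of the areas of the trapezoids -/
noncomputable def Sm (X H : ℕ → ℝ) (n : ℕ) : ℝ :=
  ∑ k ∈ Finset.range n, (H k + H (k + 1)) / 2 * (X (k + 1) - X k)

theorem layer (hC : 0 ≤ C) {n : ℕ} (h0 : ∀ k ≤ n, 0 ≤ H k)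
    (hc : ∀ j k, j ≤ k → k ≤ n → X j - C * |H k - H j| ≤ X k) :
    -C * (H 0 ^ 2 + H n ^ 2) - C / 2 * ∑ k ∈ Finset.range n, (H (k + 1) - H k) ^ 2 ≤ Sm X H n := by
  have key : ∀ k ≤ n, X k * H k - Prim (Lay C X H k) (H k) - C * H 0 ^ 2 -
      C / 2 * ∑ i ∈ Finset.range k, (H (i + 1) - H i) ^ 2 ≤ Sm X H k := by
    intro k
    induction k with
    | zero =>
      intro _
      have h := le_Prim (f := Lay C X H 0) (Lay.lip hC 0).cont (C := X 0 - C * H 0) (h0 0 (by omega))
        fun t ht => by
          refine le_trans ?_ (Lay.self (C := C) (X := X) (H := H) 0 t)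
          rw [abs_of_nonpos (by linarith [ht.2] : t - H 0 ≤ 0)]
          nlinarith [ht.1, mul_nonneg hC ht.1]
      have e0 : Prim (Lay C X H 0) 0 = 0 := by simp [Prim]
      rw [e0] at h
      simp only [Sm, Finset.range_zero, Finset.sum_empty, mul_zero, sub_zero]
      nlinarith
    | succ k ih =>
      intro hk
      have ih := ih (by omega)
      have hS : Sm X H (k + 1) = Sm X H k + (H k + H (k + 1)) / 2 * (X (k + 1) - X k) := by
        unfold Sm; rw [Finset.sum_range_succ]
      rw [hS, Finset.sum_range_succ]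
      have c0 := (Lay.lip (X := X) (H := H) hC k).cont
      have c1 := (Lay.lip (X := X) (H := H) hC (k + 1)).cont
      have e0 : ∀ j, Prim (Lay C X H j) 0 = 0 := fun j => by simp [Prim]
      have hk0 := h0 k (by omega)
      have hk1 := h0 (k + 1) hk
      suffices hs : (X k + X (k + 1)) / 2 * (H (k + 1) - H k) - C / 2 * (H (k + 1) - H k) ^ 2 ≤
          Prim (Lay C X H (k + 1)) (H (k + 1)) - Prim (Lay C X H k) (H k) by
        nlinarith
      rcases le_total (H k) (H (k + 1)) with hu | hd
      · have m1 := Prim_mono c0 c1 hk0 fun t _ => Lay.mono k t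
        rw [e0, e0] at m1
        have m2 := le_Prim c1 (C := (X k + X (k + 1)) / 2 - C / 2 * (H (k + 1) - H k)) hu
          fun t ht => by
            have s1 := (Lay.self (C := C) (X := X) (H := H) k t).trans (Lay.mono k t)
            have s2 := Lay.self (C := C) (X := X) (H := H) (k + 1) t
            rw [abs_of_nonneg (by linarith [ht.1] : 0 ≤ t - H k)] at s1
            rw [abs_of_nonpos (by linarith [ht.2] : t - H (k + 1) ≤ 0)] at s2
            nlinarith
        nlinarith
      · have m1 := Prim_mono c0 c1 hk1 fun t _ => Lay.mono k t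
        rw [e0, e0] at m1
        have m2 := Prim_le c0 (C := (X k + X (k + 1)) / 2 + C / 2 * (H k - H (k + 1))) hd
          fun t ht => by
            have s1 := Lay.le hc k k le_rfl (by omega)
            have s2 := Lay.le hc k (k + 1) (by omega) hk
            have l1 := (abs_le.1 (Lay.lip (X := X) (H := H) hC k t (H k))).2
            have l2 := (abs_le.1 (Lay.lip (X := X) (H := H) hC k t (H (k + 1)))).2
            rw [abs_of_nonpos (by linarith [ht.2] : t - H k ≤ 0)] at l1
            rw [abs_of_nonneg (by linarith [ht.1] : 0 ≤ t - H (k + 1))] at l2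
            nlinarith
        nlinarith
  have h := key n le_rfl
  have hn := h0 n le_rfl
  have m := Prim_le (f := Lay C X H n) (Lay.lip hC n).cont (C := X n + C * H n) hn
    fun t ht => by
      have s1 := Lay.le hc n n le_rfl le_rfl
      have l1 := (abs_le.1 (Lay.lip (X := X) (H := H) hC n t (H n))).2
      rw [abs_of_nonpos (by linarith [ht.2] : t - H n ≤ 0)] at l1
      nlinarith [mul_nonneg hC ht.1]
  have e0 : Prim (Lay C X H n) 0 = 0 := by simp [Prim]
  rw [e0] at m
  nlinarith

end Pool.Agent.Y450.Stab
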