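import Pool.Agent.Y450.Stab.Exact

/-! The change of the potential along the family of squares. -/

set_option autoImplicit false
open MeasureTheory intervalIntegral Set

namespace Pool.Agent.Y450.Stab

variable {T B Bs : ℝ → ℝ} {L L' : ℝ}

/-- abscissa of the last vertex -/
def XX (dd ll : ℝ → ℝ) (x : ℝ) : ℝ := x + dd x + ll x

/-- ordinate of the last vertex -/
def YY (T dd ll : ℝ → ℝ) (x : ℝ) : ℝ := T x + dd x - ll x

/-- one step, with a comparison function -/
theorem step_cmp (hT : Lip L T) (hB : Lip L B) (L1 : L < 1) (hBs : Lip L' Bs) (L1' : L' < 1)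
    {x d l r d' l' : ℝ} (S : ESq T B x d l) (S' : ESq T B (x + r) d' l') :
    ((T x + d - l - Bs (x + d + l)) + (T (x + r) + d' - l' - Bs (x + r + d' + l'))) / 2 *
        ((x + r + d' + l') - (x + d + l)) +
      (Prim Bs (x + r + d' + l') - Prim Bs (x + d + l)) -
      (Prim B (x + r + d' + l') - Prim B (x + d + l)) -
      (r ^ 2 + (r + (d' - d)) ^ 2 + (r + (l' - l)) ^ 2 + (r + (d' - d) + (l' - l)) ^ 2) / 4 ≤
    Pot T B (x + r) d' l' - Pot T B x d l := by
  have h := S.pot_step hT hB L1 S'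
  have k := (abs_le.1 (hBs.trap' (x + d + l) (x + r + d' + l'))).2
  have m := mul_le_mul_of_nonneg_right L1'.le (sq_nonneg (x + r + d' + l' - (x + d + l)))
  have e : (x + r + d' + l' - (x + d + l)) ^ 2 = (r + (d' - d) + (l' - l)) ^ 2 := by ring
  rw [e] at k m
  linarith

theorem path_area (hT : Lip L T) (hB : Lip L B) (L0 : 0 ≤ L) (L1 : L < 1) (hBs : Lip L' Bs)
    (L0' : 0 ≤ L') (L1' : L' < 1) {xs xe : ℝ} (hx : xs ≤ xe) {dd ll : ℝ → ℝ}
    (hS : ∀ x ∈ Icc xs xe, ESq T B x (dd x) (ll x))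
    (hH : ∀ x ∈ Icc xs xe, Bs (XX dd ll x) ≤ YY T dd ll x) :
    (Prim Bs (XX dd ll xe) - Prim Bs (XX dd ll xs)) - (Prim B (XX dd ll xe) - Prim B (XX dd ll xs))
      - ((YY T dd ll xs - Bs (XX dd ll xs)) ^ 2 + (YY T dd ll xe - Bs (XX dd ll xe)) ^ 2) / (1 - L')
    ≤ Pot T B xe (dd xe) (ll xe) - Pot T B xs (dd xs) (ll xs) := by
  set K : ℝ := 1 + 4 / (1 - L) with hK
  have q0 : 0 < 1 - L := by linarith
  have q0' : 0 < 1 - L' := by linarith
  have K1 : 1 ≤ K := by rw [hK]; have := div_nonneg (by norm_num : (0:ℝ) ≤ 4) q0.le; linarith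
  set C : ℝ := 1 / (1 - L') with hC
  have C0 : 0 ≤ C := by rw [hC]; positivity
  -- error
  have main : ∀ n : ℕ, 0 < n →
      (Prim Bs (XX dd ll xe) - Prim Bs (XX dd ll xs)) -
        (Prim B (XX dd ll xe) - Prim B (XX dd ll xs))
      - C * ((YY T dd ll xs - Bs (XX dd ll xs)) ^ 2 + (YY T dd ll xe - Bs (XX dd ll xe)) ^ 2)
      - (C * (2 * K) ^ 2 / 2 + K ^ 2) * (xe - xs) ^ 2 * (1 / n)
      ≤ Pot T B xe (dd xe) (ll xe) - Pot T B xs (dd xs) (ll xs) := by
    intro n hn
    have hn' : (0:ℝ) < n := by exact_mod_cast hn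
    set r : ℝ := (xe - xs) / n with hr
    have r0 : 0 ≤ r := div_nonneg (by linarith) hn'.le
    set g : ℕ → ℝ := fun k => xs + k * r with hg
    have gn : g n = xe := by
      simp only [hg, hr]
      field_simp
      ring
    have g0 : g 0 = xs := by simp [hg]
    have gs : ∀ k, g (k + 1) = g k + r := fun k => by simp only [hg]; push_cast; ring
    have gm : ∀ k ≤ n, g k ∈ Icc xs xe := by
      intro k hk
      have hk' : (k:ℝ) ≤ n := by exact_mod_cast hk
      have hk0 : (0:ℝ) ≤ k := Nat.cast_nonneg k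
      constructor
      · have := mul_nonneg hk0 r0
        simp only [hg]; linarith
      · have := mul_le_mul_of_nonneg_right hk' r0
        rw [← gn]; simp only [hg]; linarith
    set X : ℕ → ℝ := fun k => XX dd ll (g k) with hX
    set H : ℕ → ℝ := fun k => YY T dd ll (g k) - Bs (XX dd ll (g k)) with hHd
    have H0 : ∀ k ≤ n, 0 ≤ H k := fun k hk => by
      have := hH (g k) (gm k hk)
      simp only [hHd]; linarith
    have hcone : ∀ j k, j ≤ k → k ≤ n → X j - C * |H k - H j| ≤ X k := by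
      intro j k hjk hk
      by_cases hXX : X j ≤ X k
      · have := mul_nonneg C0 (abs_nonneg (H k - H j))
        linarith
      push Not at hXX
      have e : g k = g j + (k - j) * r := by simp only [hg]; ring
      have hjk' : (0:ℝ) ≤ k - j := by
        have : (j:ℝ) ≤ k := by exact_mod_cast hjk
        linarith
      have rp : 0 < ((k:ℝ) - j) * r := by
        refine lt_of_le_of_ne (mul_nonneg hjk' r0) fun h => ?_
        rw [← h, add_zero] at e
        simp only [hX, e] at hXX
        exact lt_irrefl _ hXX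
      have Sj := hS (g j) (gm j (hjk.trans hk))
      have Sk := hS (g k) (gm k hk)
      rw [e] at Sk
      have hc := Sj.cone hT hB L1 Sk rp
      rw [← e] at hc
      have hc' : X j - X k ≤ |YY T dd ll (g k) - YY T dd ll (g j)| := hc
      have hb := hBs (X k) (X j)
      rw [abs_of_neg (by linarith : X k - X j < 0)] at hb
      have hh : |YY T dd ll (g k) - YY T dd ll (g j)| ≤ |H k - H j| + |Bs (X k) - Bs (X j)| := by
        have : YY T dd ll (g k) - YY T dd ll (g j) = (H k - H j) + (Bs (X k) - Bs (X j)) := by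
          simp only [hHd, hX]; ring
        rw [this]
        exact abs_add_le _ _
      have : (1 - L') * (X j - X k) ≤ |H k - H j| := by linarith
      have := mul_le_mul_of_nonneg_left this C0
      rw [← mul_assoc, show C * (1 - L') = 1 by rw [hC]; field_simp, one_mul] at this
      linarith
    have hlay := layer (X := X) (H := H) (C := C) C0 H0 hcone
    -- bounds of the steps
    have hKr : r ≤ K * r := by
      have := mul_le_mul_of_nonneg_right K1 r0
      linarith
    have hst : ∀ k < n, |dd (g (k + 1)) - dd (g k)| + |ll (g (k + 1)) - ll (g k)| ≤ K * r - r := by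
      intro k hk
      have S1 := hS (g k) (gm k hk.le)
      have S2 := hS (g (k + 1)) (gm (k + 1) hk)
      rw [gs k] at S2
      have := S1.steps hT hB L0 L1 S2 r0
      rw [← gs k] at this
      have e : K - 1 = 4 / (1 - L) := by rw [hK]; ring
      rw [show K * r - r = (K - 1) * r by ring, e, div_mul_eq_mul_div, le_div_iff₀ q0]
      linarith
    have hstep : ∀ k < n, (H k + H (k + 1)) / 2 * (X (k + 1) - X k) +
        (Prim Bs (X (k + 1)) - Prim Bs (X k)) - (Prim B (X (k + 1)) - Prim B (X k)) -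
        K ^ 2 * r ^ 2 ≤ Pot T B (g (k + 1)) (dd (g (k + 1))) (ll (g (k + 1))) -
          Pot T B (g k) (dd (g k)) (ll (g k)) := by
      intro k hk
      have S1 := hS (g k) (gm k hk.le)
      have S2 := hS (g (k + 1)) (gm (k + 1) hk)
      rw [gs k] at S2
      have hcmp := step_cmp hT hB L1 hBs L1' S1 S2
      rw [← gs k] at hcmp
      have hs := hst k hk
      have b1 := abs_le.1 (le_refl |dd (g (k + 1)) - dd (g k)|)
      have b2 := abs_le.1 (le_refl |ll (g (k + 1)) - ll (g k)|)
      have n1 := abs_nonneg (dd (g (k + 1)) - dd (g k))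
      have n2 := abs_nonneg (ll (g (k + 1)) - ll (g k))
      have sq1 : ∀ z : ℝ, |z| ≤ K * r → z ^ 2 ≤ K ^ 2 * r ^ 2 := by
        intro z hz
        rw [← mul_pow, ← sq_abs z]
        exact pow_le_pow_left₀ (abs_nonneg _) hz 2
      have f1 : r ^ 2 ≤ K ^ 2 * r ^ 2 := sq1 r (by rw [abs_of_nonneg r0]; exact hKr)
      have f2 := sq1 (r + (dd (g (k + 1)) - dd (g k))) (by
        rw [abs_le]; constructor <;> linarith [b1.1, b1.2])
      have f3 := sq1 (r + (ll (g (k + 1)) - ll (g k))) (by
        rw [abs_le]; constructor <;> linarith [b2.1, b2.2])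
      have f4 := sq1 (r + (dd (g (k + 1)) - dd (g k)) + (ll (g (k + 1)) - ll (g k))) (by
        rw [abs_le]; constructor <;> linarith [b1.1, b1.2, b2.1, b2.2])
      have : (H k + H (k + 1)) / 2 * (X (k + 1) - X k) +
          (Prim Bs (X (k + 1)) - Prim Bs (X k)) - (Prim B (X (k + 1)) - Prim B (X k)) -
          (r ^ 2 + (r + (dd (g (k + 1)) - dd (g k))) ^ 2 + (r + (ll (g (k + 1)) - ll (g k))) ^ 2 +
            (r + (dd (g (k + 1)) - dd (g k)) + (ll (g (k + 1)) - ll (g k))) ^ 2) / 4 ≤
          Pot T B (g (k + 1)) (dd (g (k + 1))) (ll (g (k + 1))) -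
            Pot T B (g k) (dd (g k)) (ll (g k)) := hcmp
      linarith
    have hH2 : ∀ k < n, (H (k + 1) - H k) ^ 2 ≤ (2 * K) ^ 2 * r ^ 2 := by
      intro k hk
      have hs := hst k hk
      have t1 := hT (g (k + 1)) (g k)
      have t2 := hBs (XX dd ll (g (k + 1))) (XX dd ll (g k))
      rw [show g (k + 1) - g k = r by rw [gs k]; ring, abs_of_nonneg r0] at t1
      have eX : |XX dd ll (g (k + 1)) - XX dd ll (g k)| ≤ K * r := by
        have : XX dd ll (g (k + 1)) - XX dd ll (g k) =
            r + (dd (g (k + 1)) - dd (g k)) + (ll (g (k + 1)) - ll (g k)) := by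
          unfold XX
          rw [show g (k + 1) = g k + r from gs k]; ring
        rw [this]
        have b1 := abs_le.1 (le_refl |dd (g (k + 1)) - dd (g k)|)
        have b2 := abs_le.1 (le_refl |ll (g (k + 1)) - ll (g k)|)
        have n1 := abs_nonneg (dd (g (k + 1)) - dd (g k))
        have n2 := abs_nonneg (ll (g (k + 1)) - ll (g k))
        rw [abs_le]; constructor <;> linarith [b1.1, b1.2, b2.1, b2.2]
      have hz : |H (k + 1) - H k| ≤ 2 * K * r := by
        have b1 := abs_le.1 (le_refl |dd (g (k + 1)) - dd (g k)|)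
        have b2 := abs_le.1 (le_refl |ll (g (k + 1)) - ll (g k)|)
        have t1 := abs_le.1 t1
        have t2 := abs_le.1 (t2.trans (mul_le_mul_of_nonneg_left eX L0'))
        have u1 : L * r ≤ r := by
          have := mul_le_mul_of_nonneg_right L1.le r0
          linarith
        have u2 : L' * (K * r) ≤ K * r := by
          have := mul_le_mul_of_nonneg_right L1'.le (mul_nonneg (by linarith : (0:ℝ) ≤ K) r0)
          linarith
        simp only [hHd, YY]
        rw [abs_le]
        constructor <;> linarith [b1.1, b1.2, b2.1, b2.2, t1.1, t1.2, t2.1, t2.2]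
      rw [← mul_pow, ← sq_abs (H (k + 1) - H k)]
      exact pow_le_pow_left₀ (abs_nonneg _) hz 2
    have hsumH : ∑ k ∈ Finset.range n, (H (k + 1) - H k) ^ 2 ≤ n * ((2 * K) ^ 2 * r ^ 2) := by
      refine (Finset.sum_le_sum fun k hk => hH2 k (Finset.mem_range.1 hk)).trans ?_
      rw [Finset.sum_const, Finset.card_range, nsmul_eq_mul]
    have hsumP := Finset.sum_le_sum fun k hk => hstep k (Finset.mem_range.1 hk)
    rw [Finset.sum_sub_distrib, Finset.sum_sub_distrib, Finset.sum_add_distrib,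
      Finset.sum_range_sub (fun k => Prim Bs (X k)), Finset.sum_range_sub (fun k => Prim B (X k)),
      Finset.sum_range_sub (fun k => Pot T B (g k) (dd (g k)) (ll (g k))), Finset.sum_const,
      Finset.card_range, nsmul_eq_mul, gn, g0] at hsumP
    have eX0 : X 0 = XX dd ll xs := by simp only [hX, g0]
    have eXn : X n = XX dd ll xe := by simp only [hX, gn]
    have eH0 : H 0 = YY T dd ll xs - Bs (XX dd ll xs) := by simp only [hHd, g0]
    have eHn : H n = YY T dd ll xe - Bs (XX dd ll xe) := by simp only [hHd, gn]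
    rw [eX0, eXn] at hsumP
    rw [eH0, eHn] at hlay
    have er : (n:ℝ) * r ^ 2 = (xe - xs) ^ 2 * (1 / n) := by
      rw [hr]; field_simp
    have hl2 : C / 2 * ∑ k ∈ Finset.range n, (H (k + 1) - H k) ^ 2 ≤
        C / 2 * (n * ((2 * K) ^ 2 * r ^ 2)) :=
      mul_le_mul_of_nonneg_left hsumH (by positivity)
    have e3 : C / 2 * (n * ((2 * K) ^ 2 * r ^ 2)) + n * (K ^ 2 * r ^ 2) =
        (C * (2 * K) ^ 2 / 2 + K ^ 2) * (xe - xs) ^ 2 * (1 / n) := by
      rw [mul_assoc (C * (2 * K) ^ 2 / 2 + K ^ 2), ← er]; ring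
    unfold Sm at hlay
    linarith
  -- the limit
  have hlim : Filter.Tendsto (fun n : ℕ => (Prim Bs (XX dd ll xe) - Prim Bs (XX dd ll xs)) -
        (Prim B (XX dd ll xe) - Prim B (XX dd ll xs))
      - C * ((YY T dd ll xs - Bs (XX dd ll xs)) ^ 2 + (YY T dd ll xe - Bs (XX dd ll xe)) ^ 2)
      - (C * (2 * K) ^ 2 / 2 + K ^ 2) * (xe - xs) ^ 2 * (1 / (n:ℝ))) Filter.atTop
      (nhds ((Prim Bs (XX dd ll xe) - Prim Bs (XX dd ll xs)) -
        (Prim B (XX dd ll xe) - Prim B (XX dd ll xs))
      - C * ((YY T dd ll xs - Bs (XX dd ll xs)) ^ 2 + (YY T dd ll xe - Bs (XX dd ll xe)) ^ 2)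
      - (C * (2 * K) ^ 2 / 2 + K ^ 2) * (xe - xs) ^ 2 * 0)) :=
    tendsto_const_nhds.sub (tendsto_one_div_atTop_nhds_zero_nat.const_mul _)
  have := le_of_tendsto hlim (Filter.eventually_atTop.2 ⟨1, fun n hn => main n hn⟩)
  rw [mul_zero, sub_zero] at this
  have e : ((YY T dd ll xs - Bs (XX dd ll xs)) ^ 2 + (YY T dd ll xe - Bs (XX dd ll xe)) ^ 2) /
      (1 - L') = C * ((YY T dd ll xs - Bs (XX dd ll xs)) ^ 2 +
        (YY T dd ll xe - Bs (XX dd ll xe)) ^ 2) := by
    rw [hC]; ring
  rw [e]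
  exact this

end Pool.Agent.Y450.Stab
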